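import Pool.Agent.Lib.MP_144d21_co.X2.H44.Cn3b

/-!
# MP_144d21_co, project X2: connected graphs made from one side of a cut with three vertices
-/

set_option autoImplicit false

namespace Pool.Agent.Xu.X2.H44

open Finset Pool.Agent.Xu Pool.Agent.Xu.H43 Pool.Agent.Xu.X2

variable {V : Type} [Fintype V] [DecidableEq V]

namespace Cut

variable {G : SimpleGraph V} {S1 S2 : Finset V} {x y z : V}

/-- a side is connected -/
theorem conn1 (h : Cut G S1 S2 x y z) : Conn G S1 := by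
  obtain ⟨⟨x1, x2⟩, ⟨y1, y2⟩, z1, z2⟩ := h.mem
  refine conn_of x1 fun A hA h0 hxA => ?_
  by_cases hA0 : (A \ {y, z}).Nonempty
  · obtain ⟨a, ha, b, hb, hbR, hbA, hab⟩ := h.attach (R := {y, z}) card_le_two
      (fun t ht => hA (mem_sdiff.1 ht).1) hA0 (disjoint_left.2 fun t ht => (mem_sdiff.1 ht).2)
      (fun h' => hxA (mem_sdiff.1 h').1) (fun h' => (mem_sdiff.1 h').2 (by simp))
      (fun h' => (mem_sdiff.1 h').2 (by simp))
    exact ⟨a, (mem_sdiff.1 ha).1, b, hb, fun h' => hbA (mem_sdiff.2 ⟨h', hbR⟩), hab⟩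
  · have hAT : ∀ t ∈ A, t = y ∨ t = z := by
      intro t ht
      by_contra hcon
      apply hA0
      refine ⟨t, mem_sdiff.2 ⟨ht, ?_⟩⟩
      rw [mem_insert, mem_singleton]
      exact hcon
    have hAS2 : ∀ t ∈ A, t ∈ S2 := by
      intro t ht
      rcases hAT t ht with rfl | rfl
      · exact y2
      · exact z2
    obtain ⟨t, ht⟩ := h0
    rcases hAT t ht with rfl | rfl
    · obtain ⟨w, hw1, hw2, htw⟩ := h.rot.nbr
      exact ⟨t, ht, w, hw1, fun h' => hw2 (hAS2 w h'), htw⟩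
    · obtain ⟨w, hw1, hw2, htw⟩ := h.rot.rot.nbr
      exact ⟨t, ht, w, hw1, fun h' => hw2 (hAS2 w h'), htw⟩

theorem conn_add (h : Cut G S1 S2 x y z) : Conn (add G x z) S1 :=
  conn_congr (fun _ _ _ _ h => Or.inl h) h.conn1

/-- the contraction of a pair is connected -/
theorem cone1 (h : Cut G S1 S2 x y z) : Conn (con G x y) (S1.erase x) := by
  obtain ⟨⟨x1, x2⟩, ⟨y1, y2⟩, z1, z2⟩ := h.mem
  refine conn_of (u := y) (mem_erase.2 ⟨h.xy.symm, y1⟩) fun A hA h0 hyA => ?_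
  have hxA : x ∉ A := fun h' => notMem_erase x S1 (hA h')
  by_cases hA0 : (A.erase z).Nonempty
  · obtain ⟨a', ha', b', hb', hbR, hbA, hadj⟩ := h.attach (R := {z}) (A := A.erase z)
      (by simp) (fun t ht => mem_of_mem_erase (hA (mem_of_mem_erase ht))) hA0 (by
        rw [disjoint_left]
        intro t ht ht'
        rw [mem_singleton] at ht'
        rw [ht'] at ht
        exact notMem_erase z A ht)
      (fun h' => hxA (mem_of_mem_erase h')) (fun h' => hyA (mem_of_mem_erase h'))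
      (notMem_erase z A)
    rw [mem_erase] at ha'
    rw [mem_singleton] at hbR
    have hbA' : b' ∉ A := fun h' => hbA (mem_erase.2 ⟨hbR, h'⟩)
    have hay : a' ≠ y := fun h' => hyA (h' ▸ ha'.2)
    by_cases hbx : b' = x
    · subst hbx
      exact ⟨a', ha'.2, y, mem_erase.2 ⟨h.xy.symm, y1⟩, hyA,
        ⟨hay, Or.inr (Or.inr ⟨rfl, hadj.symm⟩)⟩⟩
    · exact ⟨a', ha'.2, b', mem_erase.2 ⟨hbx, hb'⟩, hbA', ⟨hadj.ne, Or.inl hadj⟩⟩
  · have hAz : ∀ t ∈ A, t = z := by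
      intro t ht
      by_contra htz
      exact hA0 ⟨t, mem_erase.2 ⟨htz, ht⟩⟩
    have hzA : z ∈ A := by
      obtain ⟨t, ht⟩ := h0
      rw [← hAz t ht]; exact ht
    obtain ⟨c, hc1, hc2, hzc⟩ := h.rot.rot.nbr
    have hcx : c ≠ x := fun h' => hc2 (h' ▸ x2)
    exact ⟨z, hzA, c, mem_erase.2 ⟨hcx, hc1⟩, fun hcA => hc2 ((hAz c hcA) ▸ z2),
      ⟨hzc.ne, Or.inl hzc⟩⟩

/-- the contraction of all three terminals is connected -/
theorem conT1 (h : Cut G S1 S2 x y z) :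
    Conn (con (con G x y) y z) ((S1.erase x).erase y) := by
  obtain ⟨⟨x1, x2⟩, ⟨y1, y2⟩, z1, z2⟩ := h.mem
  have hzm : z ∈ (S1.erase x).erase y := by
    rw [mem_erase, mem_erase]
    exact ⟨h.yz.symm, h.xz.symm, z1⟩
  refine conn_of (u := z) hzm fun A hA h0 hzA => ?_
  have hxA : x ∉ A := fun h' => notMem_erase x S1 (mem_of_mem_erase (hA h'))
  have hyA : y ∉ A := fun h' => notMem_erase y _ (hA h')
  obtain ⟨a, ha, b, hb, _, hbA, hab⟩ := h.attach (R := ∅) (A := A) (by simp)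
    (fun t ht => mem_of_mem_erase (mem_of_mem_erase (hA ht))) h0 (disjoint_empty_right A)
    hxA hyA hzA
  have hay : a ≠ y := fun e => hyA (e ▸ ha)
  have haz : a ≠ z := fun e => hzA (e ▸ ha)
  by_cases hbx : b = x
  · refine ⟨a, ha, z, hzm, hzA, ?_⟩
    rw [con_adj]
    refine ⟨haz, Or.inr (Or.inr ⟨rfl, ?_⟩)⟩
    rw [con_adj]
    exact ⟨hay.symm, Or.inr (Or.inl ⟨rfl, hbx ▸ hab.symm⟩)⟩
  · by_cases hby : b = y
    · refine ⟨a, ha, z, hzm, hzA, ?_⟩
      rw [con_adj]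
      refine ⟨haz, Or.inr (Or.inr ⟨rfl, ?_⟩)⟩
      rw [con_adj]
      exact ⟨hay.symm, Or.inl (hby ▸ hab.symm)⟩
    · exact ⟨a, ha, b, mem_erase.2 ⟨hby, mem_erase.2 ⟨hbx, hb⟩⟩, hbA,
        ⟨hab.ne, Or.inl ⟨hab.ne, Or.inl hab⟩⟩⟩

end Cut

end Pool.Agent.Xu.X2.H44
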