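import Pool.Agent.Lib.MP_144d21_co.X2.H35.Num3b

/-!
# MP_144d21_co, IQ, the 3-cut step: further numbers
-/

set_option autoImplicit false

namespace Pool.Agent.Xu.X2.H44

open Finset Pool.Agent.Xu.H35

/-- no rainbow colouring on one side; side 1 has no pendant terminals -/
theorem caseII' {A A' p p' : ℝ} {B B' q q' : Fin 3 → ℝ} (hp : 0 ≤ p) (hp' : 0 ≤ p')
    (hpp : p = 0 ∨ p' = 0) (hB : ∀ e, 0 ≤ B e) (hB' : ∀ e, 0 ≤ B' e)
    (hq : ∀ e, 0 ≤ q e) (hq' : ∀ e, 0 ≤ q' e)
    (hA1 : ∀ e, B e < A) (hA1' : ∀ e, B' e < A')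
    (hA2 : ∀ e f, e ≠ f → B e + B f < A) (hA2' : ∀ e f, e ≠ f → B' e + B' f ≤ A')
    (c2 : ∀ e, 0 < q e → 1 ≤ 2 * B e * q e) (c2' : ∀ e, 0 < q' e → 1 ≤ 2 * B' e * q' e)
    (c3 : ∀ e, 0 < p + q e → 1 ≤ (A - B e) * (p + q e))
    (c3' : ∀ e, 0 < p' + q' e → 1 ≤ (A' - B' e) * (p' + q' e))
    {e : Fin 3} (h : 0 < q e) (h' : 0 < q' e) :
    1 < (A * A' - ∑ e, B e * B' e) * (p * p' + 2 * ∑ e, q e * q' e) := by
  obtain ⟨i, j, h1, h2, h3⟩ := others e
  have e0 : ∑ e, q e * q' e = q e * q' e + q i * q' i + q j * q' j := sum3 _ h1 h2 h3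
  have e1 : ∑ e, B e * B' e = B e * B' e + B i * B' i + B j * B' j := sum3 _ h1 h2 h3
  have k1 := mul_nonneg (hq i) (hq' i)
  have k2 := mul_nonneg (hq j) (hq' j)
  have k3 := mul_pos h h'
  have hpp0 : p * p' = 0 := by rcases hpp with h | h <;> rw [h] <;> ring
  have hQ : 2 * (q e * q' e) ≤ p * p' + 2 * ∑ e, q e * q' e := by
    rw [hpp0, e0]; linarith
  have b1 := hA2 e i h1
  have b2 := hA2 e j h2
  have b3 := hA2 i j h3
  have b1' := hA2' e i h1
  have b2' := hA2' e j h2
  have b3' := hA2' i j h3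
  have x1 := sub_pos.2 (hA1 e)
  have x1' := sub_pos.2 (hA1' e)
  have hA0 : 0 < A := (hB e).trans_lt (hA1 e)
  have hA0' : 0 < A' := (hB' e).trans_lt (hA1' e)
  have p1 : 0 < 2 * B e * q e := lt_of_lt_of_le one_pos (c2 e h)
  have p1' : 0 < 2 * B' e * q' e := lt_of_lt_of_le one_pos (c2' e h')
  have hBe : 0 < B e := by
    rcases (hB e).lt_or_eq with h5 | h5
    · exact h5
    · rw [← h5] at p1; norm_num at p1
  have hBe' : 0 < B' e := by
    rcases (hB' e).lt_or_eq with h5 | h5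
    · exact h5
    · rw [← h5] at p1'; norm_num at p1'
  rcases hpp with hp0 | hp0
  · -- no rainbow colouring on side 1
    have hβ : B' e * (A - B e) < A * A' - ∑ e, B e * B' e := by
      rw [e1]
      have g1 := mul_pos x1' (sub_pos.2 b3)
      have g2 := mul_nonneg (hB i) (sub_nonneg.2 b1')
      have g3 := mul_nonneg (hB j) (sub_nonneg.2 b2')
      nlinarith
    have c := c3 e (by rw [hp0, zero_add]; exact h)
    rw [hp0, zero_add] at c
    have hβ0 : 0 < B' e * (A - B e) := mul_pos hBe' x1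
    have hid : B' e * (A - B e) * (2 * (q e * q' e)) = (2 * B' e * q' e) * ((A - B e) * q e) := by
      ring
    have c' := c2' e h'
    calc (1 : ℝ) ≤ (2 * B' e * q' e) * ((A - B e) * q e) := by nlinarith
      _ = B' e * (A - B e) * (2 * (q e * q' e)) := hid.symm
      _ < (A * A' - ∑ e, B e * B' e) * (2 * (q e * q' e)) :=
          mul_lt_mul_of_pos_right hβ (by positivity)
      _ ≤ _ := mul_le_mul_of_nonneg_left hQ (hβ0.le.trans hβ.le)
  · have hβ : B e * (A' - B' e) < A * A' - ∑ e, B e * B' e := by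
      rw [e1]
      have g1 := mul_nonneg x1.le (sub_nonneg.2 b3')
      have hbi : 0 < A - B e - B i := by linarith
      have hbj : 0 < A - B e - B j := by linarith
      have g2 := mul_nonneg hbi.le (hB' i)
      have g3 := mul_nonneg hbj.le (hB' j)
      rcases (hB' i).lt_or_eq with h5 | h5
      · have g4 := mul_pos hbi h5
        nlinarith
      · rcases (hB' j).lt_or_eq with h6 | h6
        · have g4 := mul_pos hbj h6
          nlinarith
        · rw [← h5, ← h6]
          have g4 := mul_pos x1 hA0'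
          nlinarith
    have c' := c3' e (by rw [hp0, zero_add]; exact h')
    rw [hp0, zero_add] at c'
    have hβ0 : 0 < B e * (A' - B' e) := mul_pos hBe x1'
    have hid : B e * (A' - B' e) * (2 * (q e * q' e)) = (2 * B e * q e) * ((A' - B' e) * q' e) := by
      ring
    have c := c2 e h
    calc (1 : ℝ) ≤ (2 * B e * q e) * ((A' - B' e) * q' e) := by nlinarith
      _ = B e * (A' - B' e) * (2 * (q e * q' e)) := hid.symm
      _ < (A * A' - ∑ e, B e * B' e) * (2 * (q e * q' e)) :=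
          mul_lt_mul_of_pos_right hβ (by positivity)
      _ ≤ _ := mul_le_mul_of_nonneg_left hQ (hβ0.le.trans hβ.le)

/-- only the constant pattern is common; the interior of side 1 is connected and some pair is
never the only equal pair on side 2 -/
theorem num3d {A A' b b' C C' r r' : ℝ} {B B' D D' : Fin 3 → ℝ} (hb : 0 ≤ b) (hb' : 0 ≤ b')
    (hD0 : ∀ e, 0 ≤ D e) (hD0' : ∀ e, 0 ≤ D' e) (hr : 0 < r) (hr' : 0 < r')
    (hA : A = b + ∑ e, D e + 2 * C) (hA' : A' = b' + ∑ e, D' e + 2 * C')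
    (hB : ∀ e, B e = C + D e) (hB' : ∀ e, B' e = C' + D' e)
    (hC : 1 / 4 ≤ C * r) (hC' : 0 ≤ C')
    (hD : ∀ e, 1 / 2 ≤ D e * r ∨ 1 / 2 ≤ D' e * r') (hI : ∃ e, 1 / 2 ≤ D' e * r') :
    1 < (A * A' - ∑ e, B e * B' e) * (6 * (r * r')) := by
  have hC0 : 0 < C := by
    by_contra h
    have := mul_nonpos_of_nonpos_of_nonneg (not_lt.1 h) hr.le
    linarith
  obtain ⟨e, he⟩ := hI
  obtain ⟨i, j, h1, h2, h3⟩ := others e
  have s1 : ∑ e, D e = D e + D i + D j := sum3 _ h1 h2 h3
  have s2 : ∑ e, D' e = D' e + D' i + D' j := sum3 _ h1 h2 h3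
  have s3 : ∑ e, B e * B' e = B e * B' e + B i * B' i + B j * B' j := sum3 _ h1 h2 h3
  have key : C * D' e + C * D' i + C * D' j + D i * D' e + D j * D' e ≤
      A * A' - ∑ e, B e * B' e := by
    rw [s3, hA, hA', s1, s2, hB, hB, hB, hB', hB', hB']
    have n0 := hD0 e
    have n1 := hD0 i
    have n2 := hD0 j
    have n0' := hD0' e
    have n1' := hD0' i
    have n2' := hD0' j
    have a1 := mul_nonneg n0 n1'
    have a2 := mul_nonneg n0 n2'
    have a4 := mul_nonneg n1 n2'
    have a6 := mul_nonneg n2 n1'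
    have a7 := mul_nonneg hb hb'
    have a8 := mul_nonneg hb hC'
    have a9 := mul_nonneg hb' hC0.le
    have b0 := mul_nonneg hb n0'
    have b1 := mul_nonneg hb n1'
    have b2 := mul_nonneg hb n2'
    have b3 := mul_nonneg hb' n0
    have b4 := mul_nonneg hb' n1
    have b5 := mul_nonneg hb' n2
    have d0 := mul_nonneg hC' n0
    have d1 := mul_nonneg hC' n1
    have d2 := mul_nonneg hC' n2
    have d3 := mul_nonneg hC' hC0.le
    nlinarith
  have hrr := mul_pos hr hr'
  -- the three contributions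
  have t0 : 1 / 8 ≤ C * D' e * (r * r') := by
    have : C * D' e * (r * r') = (C * r) * (D' e * r') := by ring
    rw [this]; nlinarith
  have t : ∀ k, 1 / 8 ≤ (C * D' k + D k * D' e) * (r * r') := by
    intro k
    have e1 : (C * D' k + D k * D' e) * (r * r') =
        (C * r) * (D' k * r') + (D k * r) * (D' e * r') := by ring
    rw [e1]
    have m1 := mul_nonneg (hD0 k) hr.le
    have m2 := mul_nonneg (hD0' k) hr'.le
    rcases hD k with h | h <;> nlinarith
  have t1 := t i
  have t2 := t j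
  have hfin := mul_le_mul_of_nonneg_right key hrr.le
  nlinarith

end Pool.Agent.Xu.X2.H44
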