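import Pool.Agent.Lib.MP_144d21_co.X2.H44.Cc3

/-!
# MP_144d21_co, project X2: changing the colour of a vertex with one neighbour, restriction
-/

set_option autoImplicit false

namespace Pool.Agent.Xu.X2.H44

open Finset Pool.Agent.Xu Pool.Agent.Xu.X2

variable {V : Type} [Fintype V] [DecidableEq V] {G : SimpleGraph V} {S : Finset V}

theorem recol {c : V → ℕ} {q : ℕ} (hc : c ∈ cols G S q) {y : V} (hy : y ∈ S) {k : ℕ}
    (hk : k < q) (h : ∀ b ∈ S, G.Adj y b → c b ≠ k) :
    Function.update c y k ∈ cols G S q := by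
  rw [mem_cols] at hc ⊢
  obtain ⟨h1, h2, h3⟩ := hc
  refine ⟨fun v hv => ?_, fun v hv => ?_, fun u hu v hv huv => ?_⟩
  · by_cases hvy : v = y
    · subst hvy; rw [Function.update_self]; exact hk
    · rw [Function.update_of_ne hvy]; exact h1 v hv
  · have hvy : v ≠ y := fun e => hv (e ▸ hy)
    rw [Function.update_of_ne hvy]; exact h2 v hv
  · by_cases huy : u = y
    · subst huy
      rw [Function.update_self, Function.update_of_ne huv.ne.symm]
      exact (h v hv huv).symm
    · by_cases hvy : v = y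
      · subst hvy
        rw [Function.update_self, Function.update_of_ne huv.ne]
        exact h u hu huv.symm
      · rw [Function.update_of_ne huy, Function.update_of_ne hvy]
        exact h3 u hu v hv huv

theorem fresh (a b c : ℕ) : ∃ k, k < 4 ∧ k ≠ a ∧ k ≠ b ∧ k ≠ c := by
  by_contra hcon
  push Not at hcon
  have h0 := hcon 0 (by norm_num)
  have h1 := hcon 1 (by norm_num)
  have h2 := hcon 2 (by norm_num)
  have h3 := hcon 3 (by norm_num)
  omega

section

variable {x y z w : V}

/-- a rainbow colouring gives one with `y` equal to a neighbour terminal -/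
theorem rcP (hxy : x ≠ y) (hyz : y ≠ z) (hx : x ∈ S) (hy : y ∈ S) (hz : z ∈ S)
    (hw : ∀ b ∈ S, G.Adj y b → b = w) (h : 0 < cP G S x y z) :
    0 < cQ G S x y z ∨ 0 < cQ G S y z x := by
  obtain ⟨c, hc, h1, h2, h3⟩ := cP_pos.1 h
  have hlt := (mem_cols.1 hc).1
  by_cases hxw : c x = c w
  · right
    rw [cQ_pos]
    refine ⟨Function.update c y (c z), recol hc hy (hlt z hz) ?_, ?_, ?_⟩
    · intro b hb hab
      rw [hw b hb hab, ← hxw]
      exact h3
    · rw [Function.update_self, Function.update_of_ne hyz.symm]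
    · rw [Function.update_self, Function.update_of_ne hxy]
      exact h3.symm
  · left
    rw [cQ_pos]
    refine ⟨Function.update c y (c x), recol hc hy (hlt x hx) ?_, ?_, ?_⟩
    · intro b hb hab
      rw [hw b hb hab]
      exact fun e => hxw e.symm
    · rw [Function.update_self, Function.update_of_ne hxy]
    · rw [Function.update_of_ne hxy, Function.update_of_ne hyz.symm]
      exact h3

/-- a colouring with `x, y` equal and `z` different gives a rainbow colouring -/
theorem rcZ (hxy : x ≠ y) (hyz : y ≠ z) (hy : y ∈ S)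
    (hw : ∀ b ∈ S, G.Adj y b → b = w) (h : 0 < cQ G S x y z) : 0 < cP G S x y z := by
  obtain ⟨c, hc, h1, h2⟩ := cQ_pos.1 h
  obtain ⟨k, hk, hk1, hk2, hk3⟩ := fresh (c x) (c z) (c w)
  rw [cP_pos]
  refine ⟨Function.update c y k, recol hc hy hk ?_, ?_, ?_, ?_⟩
  · intro b hb hab
    rw [hw b hb hab]
    exact hk3.symm
  · rw [Function.update_self, Function.update_of_ne hxy]
    exact hk1.symm
  · rw [Function.update_self, Function.update_of_ne hyz.symm]
    exact hk2
  · rw [Function.update_of_ne hxy, Function.update_of_ne hyz.symm]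
    exact h2

/-- a colouring constant on the terminals gives one with only `y` different -/
theorem rcR (hxy : x ≠ y) (hyz : y ≠ z) (hy : y ∈ S)
    (hw : ∀ b ∈ S, G.Adj y b → b = w) (h : 0 < cR G S x y z) : 0 < cQ G S x z y := by
  obtain ⟨c, hc, h1, h2⟩ := cR_pos.1 h
  obtain ⟨k, hk, hk1, hk2, _⟩ := fresh (c x) (c w) 0
  rw [cQ_pos]
  refine ⟨Function.update c y k, recol hc hy hk ?_, ?_, ?_⟩
  · intro b hb hab
    rw [hw b hb hab]
    exact hk2.symm
  · rw [Function.update_of_ne hxy, Function.update_of_ne hyz.symm]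
    exact h2
  · rw [Function.update_self, Function.update_of_ne hxy]
    exact hk1.symm

end

/-- restriction of a colouring -/
theorem restr {S' : Finset V} {c : V → ℕ} {q : ℕ} (hc : c ∈ cols G S q) (h : S' ⊆ S) :
    (fun v => if v ∈ S' then c v else 0) ∈ cols G S' q := by
  rw [mem_cols] at hc ⊢
  obtain ⟨h1, h2, h3⟩ := hc
  refine ⟨fun v hv => ?_, fun v hv => ?_, fun u hu v hv huv => ?_⟩
  · rw [if_pos hv]; exact h1 v (h hv)
  · rw [if_neg hv]
  · rw [if_pos hu, if_pos hv]; exact h3 u (h hu) v (h hv) huv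

theorem cQ_restr {S' : Finset V} {x y z : V} (h : S' ⊆ S) (hx : x ∈ S') (hy : y ∈ S')
    (hz : z ∈ S') (hq : 0 < cQ G S x y z) : 0 < cQ G S' x y z := by
  obtain ⟨c, hc, h1, h2⟩ := cQ_pos.1 hq
  rw [cQ_pos]
  refine ⟨_, restr hc h, ?_, ?_⟩
  · simp only [if_pos hx, if_pos hy]; exact h1
  · simp only [if_pos hx, if_pos hz]; exact h2

end Pool.Agent.Xu.X2.H44
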