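import Pool.Agent.Lib.MP_144d21_co.X2.IfaceS
import Pool.Agent.Lib.MP_144d21_co.X2.H44.Cn3c
import Pool.Agent.Lib.MP_144d21_co.X2.H44.Rc3
import Pool.Agent.Lib.MP_144d21_co.X2.H44.Nu3

/-!
# MP_144d21_co, IQ, the 3-cut step: the numbers of one side
-/

set_option autoImplicit false

namespace Pool.Agent.Xu.X2.H44

open Finset Pool.Agent.Xu Pool.Agent.Xu.X2

variable {V : Type} [Fintype V] [DecidableEq V]

theorem tri_rot (G : SimpleGraph V) (x y z : V) : tri G y z x = tri G x y z := by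
  ext a b
  rw [tri_adj, tri_adj]
  tauto

theorem tri_swap (G : SimpleGraph V) (x y z : V) : tri G x z y = tri G x y z := by
  ext a b
  rw [tri_adj, tri_adj]
  tauto

/-- the contraction of the pair `x, y` (zero if it is an edge) -/
noncomputable def bB (G : SimpleGraph V) (S : Finset V) (x y z : V) : ℤ := by
  classical
  exact if G.Adj x y then 0 else bet (con (tri G x y z) x y) (S.erase x)

theorem bB_adj {G : SimpleGraph V} {S : Finset V} {x y z : V} (h : G.Adj x y) :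
    bB G S x y z = 0 := by
  unfold bB
  rw [if_pos h]

theorem bB_not {G : SimpleGraph V} {S : Finset V} {x y z : V} (h : ¬ G.Adj x y) :
    bB G S x y z = bet (con (tri G x y z) x y) (S.erase x) := by
  unfold bB
  rw [if_neg h]

/-- `y` has at most one neighbour in `S` -/
def Pd (G : SimpleGraph V) (S : Finset V) (y : V) : Prop :=
  ¬ ∃ a b, a ≠ b ∧ a ∈ S ∧ b ∈ S ∧ G.Adj y a ∧ G.Adj y b

namespace Cut

variable {G : SimpleGraph V} {S1 S2 : Finset V} {x y z : V}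

theorem bB_symm (h : Cut G S1 S2 x y z) : bB G S1 y x z = bB G S1 x y z := by
  obtain ⟨⟨x1, x2⟩, ⟨y1, y2⟩, z1, z2⟩ := h.mem
  by_cases hxy : G.Adj x y
  · rw [bB_adj hxy, bB_adj hxy.symm]
  · rw [bB_not hxy, bB_not (fun h' => hxy h'.symm)]
    have e : tri G y x z = tri G x y z := by
      ext a b
      rw [tri_adj, tri_adj]
      tauto
    rw [e]
    exact bet_con_comm _ _ _ _ y1 x1 (by rw [tri_adj]; exact Or.inr ⟨h.xy.symm, by tauto⟩)

theorem term2 (h : Cut G S1 S2 x y z) :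
    bet (add G x z) S1 = bet (tri G x y z) S1 - bB G S1 x y z - bB G S1 y z x := by
  obtain ⟨⟨x1, x2⟩, ⟨y1, y2⟩, z1, z2⟩ := h.mem
  have h0 := bet_tri (add G x z) S1 x y z x1 y1 z1 h.xy h.yz h.xz
  have hA : (add G x z).Adj x z := Or.inr ⟨h.xz, Or.inl ⟨rfl, rfl⟩⟩
  have e : tri (add G x z) x y z = tri G x y z := by
    ext a b
    rw [tri_adj, tri_adj, add_adj]
    constructor
    · rintro ((h | ⟨hab, ⟨rfl, rfl⟩ | ⟨rfl, rfl⟩⟩) | h)
      · exact Or.inl h
      · exact Or.inr ⟨hab, by tauto⟩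
      · exact Or.inr ⟨hab, by tauto⟩
      · exact Or.inr h
    · rintro (h | h)
      · exact Or.inl (Or.inl h)
      · exact Or.inr h
  have e1 : (add G x z).Adj x y ↔ G.Adj x y := by
    rw [add_adj]
    constructor
    · rintro (h' | ⟨_, h' | h'⟩)
      · exact h'
      · exact absurd h'.2 h.yz
      · exact absurd h'.1 h.xz
    · exact fun h' => Or.inl h'
  have e2 : (add G x z).Adj y z ↔ G.Adj y z := by
    rw [add_adj]
    constructor
    · rintro (h' | ⟨_, h' | h'⟩)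
      · exact h'
      · exact absurd h'.1.symm h.xy
      · exact absurd h'.1 h.yz
    · exact fun h' => Or.inl h'
  rw [if_pos hA, if_pos (Or.inr (Or.inr hA)), e] at h0
  by_cases a1 : G.Adj x y
  · rw [if_pos (e1.2 a1)] at h0
    by_cases a2 : G.Adj y z
    · rw [if_pos (e2.2 a2)] at h0
      rw [bB_adj a1, bB_adj a2, h0]; ring
    · rw [if_neg (fun h' => a2 (e2.1 h'))] at h0
      rw [bB_adj a1, bB_not a2, tri_rot G x y z, h0]; ring
  · rw [if_neg (fun h' => a1 (e1.1 h'))] at h0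
    by_cases a2 : G.Adj y z
    · rw [if_pos (e2.2 a2)] at h0
      rw [bB_not a1, bB_adj a2, h0]; ring
    · rw [if_neg (fun h' => a2 (e2.1 h'))] at h0
      rw [bB_not a1, bB_not a2, tri_rot G x y z, h0]; ring

theorem term1 (h : Cut G S1 S2 x y z) (hxy : ¬ G.Adj x y) :
    bet (del (tri G x y z) x y) S1 = bet (tri G x y z) S1 - bB G S1 x y z := by
  have h1 := iBetdc V (tri G x y z) S1 x y h.mem.1.1 h.mem.2.1.1 h.tri_xy
  rw [bB_not hxy]
  linarith

/-- a pendant terminal has only inner neighbours -/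
theorem pd_w (h : Cut G S1 S2 x y z) (hy : Pd G S1 y) : ∃ w ∈ S1, w ∉ S2 ∧ G.Adj y w ∧
    ∀ b ∈ S1, G.Adj y b → b = w := by
  obtain ⟨w, hw1, hw2, hyw⟩ := h.rot.nbr
  refine ⟨w, hw1, hw2, hyw, fun b hb hyb => ?_⟩
  by_contra hne
  exact hy ⟨b, w, hne, hb, hw1, hyb, hyw⟩

theorem not_pd (h : Cut G S1 S2 x y z) (hy : ¬ Pd G S1 y) : TwoConn (add G x z) S1 := by
  unfold Pd at hy
  push Not at hy
  obtain ⟨a, b, hab, ha, hb, hya, hyb⟩ := hy
  exact h.add2 hab ha hb hya hyb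

end Cut

/-- IQ without equality for all graphs with at most `n` vertices -/
def IqLe (V : Type) [Fintype V] [DecidableEq V] (n : ℕ) : Prop :=
  ∀ (G' : SimpleGraph V) (S' : Finset V), S'.card ≤ n → TwoConn G' S' →
    (cols G' S' 4).Nonempty → 3 * 2 ^ S'.card ≤ bet G' S' * ((cols G' S' 4).card : ℤ)

/-- positivity -/
def BposS : Prop := ∀ (V : Type) [Fintype V] [DecidableEq V] (G : SimpleGraph V) (S : Finset V),
  TwoConn G S → 0 < bet G S

namespace Cut

variable {G : SimpleGraph V} {S1 S2 : Finset V} {x y z : V}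

theorem a_pos (hP : BposS) (h : Cut G S1 S2 x y z) : 0 < bet (tri G x y z) S1 :=
  hP V _ _ h.tri2

theorem b_nonneg (hP : BposS) (h : Cut G S1 S2 x y z) : 0 ≤ bB G S1 x y z := by
  by_cases hxy : G.Adj x y
  · rw [bB_adj hxy]
  · rw [bB_not hxy]
    exact (hP V _ _ h.con2).le

theorem b_pos (hP : BposS) (h : Cut G S1 S2 x y z) (hxy : ¬ G.Adj x y) :
    0 < bB G S1 x y z := by
  rw [bB_not hxy]
  exact hP V _ _ h.con2

theorem b_lt (hP : BposS) (h : Cut G S1 S2 x y z) :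
    bB G S1 x y z < bet (tri G x y z) S1 := by
  by_cases hxy : G.Adj x y
  · rw [bB_adj hxy]; exact h.a_pos hP
  · have h1 := hP V _ _ h.del2
    rw [h.term1 hxy] at h1
    linarith

theorem bb_le (hB : BnnS) (h : Cut G S1 S2 x y z) :
    bB G S1 x y z + bB G S1 y z x ≤ bet (tri G x y z) S1 := by
  have h1 := hB V _ S1 h.conn_add ((by norm_num : 2 ≤ 4).trans h.card4)
  rw [h.term2] at h1
  linarith

theorem bb_lt (hP : BposS) (h : Cut G S1 S2 x y z) (hy : ¬ Pd G S1 y) :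
    bB G S1 x y z + bB G S1 y z x < bet (tri G x y z) S1 := by
  have h1 := hP V _ S1 (h.not_pd hy)
  rw [h.term2] at h1
  linarith

theorem i1 (h : Cut G S1 S2 x y z) (hI : IqLe V S1.card) (hp : 0 < cP G S1 x y z) :
    3 * 2 ^ S1.card ≤ bet (tri G x y z) S1 * (cP G S1 x y z : ℤ) := by
  obtain ⟨⟨x1, x2⟩, ⟨y1, y2⟩, z1, z2⟩ := h.mem
  have e := cols_tri (G := G) x1 y1 z1 h.xy h.yz h.xz
  rw [← e]
  refine hI _ _ le_rfl h.tri2 ?_
  rw [← card_pos, e]
  exact hp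

theorem i2 (h : Cut G S1 S2 x y z) (hI : IqLe V S1.card) (hq : 0 < cQ G S1 x y z) :
    3 * 2 ^ S1.card ≤ 2 * bB G S1 x y z * (cQ G S1 x y z : ℤ) := by
  obtain ⟨⟨x1, x2⟩, ⟨y1, y2⟩, z1, z2⟩ := h.mem
  have hxy : ¬ G.Adj x y := by
    intro h'
    rw [cQ_adj x1 y1 h'] at hq
    exact lt_irrefl _ hq
  have e := cols_con_tri (G := G) x1 y1 z1 h.xy h.yz h.xz hxy
  have h1 := hI (con (tri G x y z) x y) (S1.erase x) (card_le_card (erase_subset x S1)) h.con2 (by
    rw [← card_pos, e]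
    exact hq)
  rw [e, ← bB_not hxy] at h1
  have hc : S1.card = (S1.erase x).card + 1 := (card_erase_add_one x1).symm
  rw [hc, pow_succ]
  linarith

theorem i3 (h : Cut G S1 S2 x y z) (hI : IqLe V S1.card)
    (hq : 0 < cP G S1 x y z + cQ G S1 x y z) :
    3 * 2 ^ S1.card ≤ (bet (tri G x y z) S1 - bB G S1 x y z) *
      ((cP G S1 x y z : ℤ) + (cQ G S1 x y z : ℤ)) := by
  obtain ⟨⟨x1, x2⟩, ⟨y1, y2⟩, z1, z2⟩ := h.mem
  by_cases hxy : G.Adj x y
  · rw [cQ_adj x1 y1 hxy, add_zero] at hq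
    rw [cQ_adj x1 y1 hxy, bB_adj hxy, Nat.cast_zero, add_zero, sub_zero]
    exact h.i1 hI hq
  · have e := cols_del_tri (G := G) x1 y1 z1 h.xy h.yz h.xz hxy
    have h1 := hI _ S1 le_rfl h.del2 (by rw [← card_pos, e]; exact hq)
    rw [e, h.term1 hxy, Nat.cast_add] at h1
    exact h1

theorem i4 (h : Cut G S1 S2 x y z) (hI : IqLe V S1.card) (hy : ¬ Pd G S1 y)
    (hq : 0 < cP G S1 x y z + cQ G S1 x y z + cQ G S1 y z x) :
    3 * 2 ^ S1.card ≤ (bet (tri G x y z) S1 - bB G S1 x y z - bB G S1 y z x) *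
      ((cP G S1 x y z : ℤ) + (cQ G S1 x y z : ℤ) + (cQ G S1 y z x : ℤ)) := by
  obtain ⟨⟨x1, x2⟩, ⟨y1, y2⟩, z1, z2⟩ := h.mem
  have e := cols_add (G := G) (y := y) x1 z1 h.xz
  have h1 := hI _ S1 le_rfl (h.not_pd hy) (by rw [← card_pos, e]; exact hq)
  rw [e, h.term2, Nat.cast_add, Nat.cast_add] at h1
  exact h1

theorem rc (h : Cut G S1 S2 x y z) (hy : Pd G S1 y) (hp : 0 < cP G S1 x y z) :
    0 < cQ G S1 x y z ∨ 0 < cQ G S1 y z x := by
  obtain ⟨⟨x1, x2⟩, ⟨y1, y2⟩, z1, z2⟩ := h.mem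
  obtain ⟨w, _, _, _, hw⟩ := h.pd_w hy
  exact rcP h.xy h.yz x1 y1 z1 hw hp

end Cut

end Pool.Agent.Xu.X2.H44
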