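import Pool.Agent.Lib.MP_144d21_co.XU.Iface
import Pool.Agent.Lib.MP_144d21_co.X2.H44.Sd3

/-!
# MP_144d21_co, project X2: positivity of `bet` for 2-connected graphs
-/

set_option autoImplicit false

namespace Pool.Agent.Xu.X2.H44

open Finset Pool.Agent.Xu Pool.Agent.Xu.X2

/-- positivity, from THMA and PERT -/
theorem bpos (hTA : ThmaS) (hPE : PertS) : BposS := by
  intro V _ _ G S h
  obtain ⟨p, hp, _⟩ := hPE V G S 0
  have h1 := (hTA V G S p hp h).1
  have h2 : (0 : ℤ) < 2 ^ rk p G S := by positivity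
  have h3 : (0 : ℤ) < 2 ^ (2 * S.card - 3) := by positivity
  by_contra hn
  have := mul_nonpos_of_nonpos_of_nonneg (not_lt.1 hn) h3.le
  linarith

end Pool.Agent.Xu.X2.H44
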