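import Pool.Agent.Lib.MP_144d21_co.X2.H44.Main3

/-!
# MP_144d21_co, IQ, the 3-cut step: all colourings are constant on the cut, assembly
-/

set_option autoImplicit false

namespace Pool.Agent.Xu.X2.H44

open Finset Pool.Agent.Xu Pool.Agent.Xu.X2

variable {V : Type} [Fintype V] [DecidableEq V]

/-- the facts about one missing pair in the constant case -/
def CF (n : ℕ) (B C D r : ℝ) (q : ℕ) : Prop :=
  B = C + D ∧ 0 ≤ D ∧ (q = 0 → 1 / 2 ≤ D * (r / (3 * 2 ^ n)))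

namespace Cut

variable {G : SimpleGraph V} {S1 S2 : Finset V} {x y z : V}

theorem cf (hB : BnnS) (h : Cut G S1 S2 x y z) (hI : IqLe V S1.card) (h1 : ¬ G.Adj x y)
    (h2 : ¬ G.Adj y z) (h3 : ¬ G.Adj x z) (hr : 0 < cR G S1 x y z) :
    CF S1.card (bB G S1 x y z : ℝ) (bC G S1 x y z : ℝ) (bD G S1 x y : ℝ)
      (cR G S1 x y z : ℝ) (cQ G S1 x y z) := by
  refine ⟨?_, ?_, fun hq => ?_⟩
  · exact_mod_cast h.bcd h1 h2 h3
  · exact_mod_cast h.bD_nonneg hB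
  · have k := h.iD hI h1 h2 h3 hr hq
    have k' : (3 : ℝ) * 2 ^ S1.card ≤ 2 * (bD G S1 x y : ℝ) * (cR G S1 x y z : ℝ) := by
      exact_mod_cast k
    have hp : (0 : ℝ) < 3 * 2 ^ S1.card := by positivity
    rw [← mul_div_assoc, le_div_iff₀ hp]
    linarith

theorem cf0 (hB : BnnS) (h : Cut G S1 S2 x y z) (hI : IqLe V S1.card) (h1 : ¬ G.Adj x y)
    (h2 : ¬ G.Adj y z) (h3 : ¬ G.Adj x z) (hr : 0 < cR G S1 x y z) :
    CF S1.card (bB G S1 y z x : ℝ) (bC G S1 x y z : ℝ) (bD G S1 y z : ℝ)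
      (cR G S1 x y z : ℝ) (cQ G S1 y z x) := by
  have k := h.rot.cf hB hI h2 (fun h' => h3 h'.symm) (fun h' => h1 h'.symm)
    (by rw [cR_rot]; exact hr)
  rw [h.bC_rot h1 h2 h3, cR_rot] at k
  exact k

theorem cf1 (hB : BnnS) (h : Cut G S1 S2 x y z) (hI : IqLe V S1.card) (h1 : ¬ G.Adj x y)
    (h2 : ¬ G.Adj y z) (h3 : ¬ G.Adj x z) (hr : 0 < cR G S1 x y z) :
    CF S1.card (bB G S1 x z y : ℝ) (bC G S1 x y z : ℝ) (bD G S1 x z : ℝ)
      (cR G S1 x y z : ℝ) (cQ G S1 x z y) := by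
  have k := h.swap.cf hB hI h3 (fun h' => h2 h'.symm) h1 (by rw [cR_swap]; exact hr)
  rw [h.bC_swap h1 h2 h3, cR_swap] at k
  exact k

theorem main3 (hB : BnnS) (h : Cut G S1 S2 x y z) (h1 : ¬ G.Adj x y) (h2 : ¬ G.Adj y z)
    (h3 : ¬ G.Adj x z) (hI : IqLe V S1.card) (hI' : IqLe V S2.card)
    (hc : Conn G (S1 \ S2)) (hr : 0 < cR G S1 x y z) (hr' : 0 < cR G S2 x y z)
    (q0 : cQ G S1 y z x = 0 ∨ cQ G S2 y z x = 0) (q1 : cQ G S1 x z y = 0 ∨ cQ G S2 x z y = 0)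
    (q2 : cQ G S1 x y z = 0 ∨ cQ G S2 x y z = 0)
    (hi : cQ G S2 y z x = 0 ∨ cQ G S2 x z y = 0 ∨ cQ G S2 x y z = 0) :
    3 * 2 ^ (S1 ∪ S2).card < bet G (S1 ∪ S2) * ((cols G (S1 ∪ S2) 4).card : ℤ) := by
  have h' := h.symm
  have a0 := h.cf0 hB hI h1 h2 h3 hr
  have a1 := h.cf1 hB hI h1 h2 h3 hr
  have a2 := h.cf hB hI h1 h2 h3 hr
  have b0 := h'.cf0 hB hI' h1 h2 h3 hr'
  have b1 := h'.cf1 hB hI' h1 h2 h3 hr'
  have b2 := h'.cf hB hI' h1 h2 h3 hr'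
  have hN : (0 : ℝ) < 3 * 2 ^ S1.card := by positivity
  have hN' : (0 : ℝ) < 3 * 2 ^ S2.card := by positivity
  have hrR : (0 : ℝ) < cR G S1 x y z := by exact_mod_cast hr
  have hrR' : (0 : ℝ) < cR G S2 x y z := by exact_mod_cast hr'
  have eA : (bet (tri G x y z) S1 : ℝ) = (bet G S1 : ℝ) +
      ((bD G S1 y z : ℝ) + (bD G S1 x z : ℝ) + (bD G S1 x y : ℝ)) + 2 * (bC G S1 x y z : ℝ) := by
    have k := h.bA h1 h2 h3
    have k' : (bet G S1 : ℝ) = (bet (tri G x y z) S1 : ℝ) - (bB G S1 y z x : ℝ) -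
      (bB G S1 x z y : ℝ) - (bB G S1 x y z : ℝ) + (bC G S1 x y z : ℝ) := by exact_mod_cast k
    rw [a0.1, a1.1, a2.1] at k'
    linarith
  have eA' : (bet (tri G x y z) S2 : ℝ) = (bet G S2 : ℝ) +
      ((bD G S2 y z : ℝ) + (bD G S2 x z : ℝ) + (bD G S2 x y : ℝ)) + 2 * (bC G S2 x y z : ℝ) := by
    have k := h'.bA h1 h2 h3
    have k' : (bet G S2 : ℝ) = (bet (tri G x y z) S2 : ℝ) - (bB G S2 y z x : ℝ) -
      (bB G S2 x z y : ℝ) - (bB G S2 x y z : ℝ) + (bC G S2 x y z : ℝ) := by exact_mod_cast k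
    rw [b0.1, b1.1, b2.1] at k'
    linarith
  have hC : (1 : ℝ) / 4 ≤ (bC G S1 x y z : ℝ) * ((cR G S1 x y z : ℝ) / (3 * 2 ^ S1.card)) := by
    have k := h.iC hI h1 h2 h3 hc hr
    have k' : (3 : ℝ) * 2 ^ S1.card ≤ 4 * (bC G S1 x y z : ℝ) * (cR G S1 x y z : ℝ) := by
      exact_mod_cast k
    rw [← mul_div_assoc, le_div_iff₀ hN]
    linarith
  have key := num3d (A := (bet (tri G x y z) S1 : ℝ)) (A' := (bet (tri G x y z) S2 : ℝ))
    (b := (bet G S1 : ℝ)) (b' := (bet G S2 : ℝ)) (C := (bC G S1 x y z : ℝ))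
    (C' := (bC G S2 x y z : ℝ)) (r := (cR G S1 x y z : ℝ) / (3 * 2 ^ S1.card))
    (r' := (cR G S2 x y z : ℝ) / (3 * 2 ^ S2.card))
    (B := ![(bB G S1 y z x : ℝ), (bB G S1 x z y : ℝ), (bB G S1 x y z : ℝ)])
    (B' := ![(bB G S2 y z x : ℝ), (bB G S2 x z y : ℝ), (bB G S2 x y z : ℝ)])
    (D := ![(bD G S1 y z : ℝ), (bD G S1 x z : ℝ), (bD G S1 x y : ℝ)])
    (D' := ![(bD G S2 y z : ℝ), (bD G S2 x z : ℝ), (bD G S2 x y : ℝ)])
    (by exact_mod_cast h.b_nn hB) (by exact_mod_cast h'.b_nn hB)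
    (all3 a0.2.1 a1.2.1 a2.2.1) (all3 b0.2.1 b1.2.1 b2.2.1)
    (div_pos hrR hN) (div_pos hrR' hN')
    (by rw [Fin.sum_univ_three]; exact eA) (by rw [Fin.sum_univ_three]; exact eA')
    (all3 a0.1 a1.1 a2.1) (all3 b0.1 b1.1 b2.1) hC (by exact_mod_cast h'.bC_nonneg hB)
    (all3 (q0.imp a0.2.2 b0.2.2) (q1.imp a1.2.2 b1.2.2) (q2.imp a2.2.2 b2.2.2))
    (by
      rcases hi with f | f | f
      · exact ⟨0, b0.2.2 f⟩
      · exact ⟨1, b1.2.2 f⟩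
      · exact ⟨2, b2.2.2 f⟩)
  rw [Fin.sum_univ_three] at key
  have e6 : (bet G (S1 ∪ S2) : ℝ) = (bet (tri G x y z) S1 : ℝ) * (bet (tri G x y z) S2 : ℝ) -
      ((bB G S1 y z x : ℝ) * (bB G S2 y z x : ℝ) + (bB G S1 x z y : ℝ) * (bB G S2 x z y : ℝ) +
        (bB G S1 x y z : ℝ) * (bB G S2 x y z : ℝ)) := by
    exact_mod_cast h.betc
  have key' : 1 < (bet G (S1 ∪ S2) : ℝ) * (6 * (((cR G S1 x y z : ℝ) / (3 * 2 ^ S1.card)) *
      ((cR G S2 x y z : ℝ) / (3 * 2 ^ S2.card)))) := by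
    rw [e6]
    exact key
  have hβ : 0 < (bet G (S1 ∪ S2) : ℝ) := by
    by_contra hn
    have hpos : (0 : ℝ) ≤ 6 * (((cR G S1 x y z : ℝ) / (3 * 2 ^ S1.card)) *
      ((cR G S2 x y z : ℝ) / (3 * 2 ^ S2.card))) := by positivity
    have := mul_nonpos_of_nonpos_of_nonneg (not_lt.1 hn) hpos
    linarith
  have e7 : (6 : ℝ) * (((cR G S1 x y z : ℝ) / (3 * 2 ^ S1.card)) *
      ((cR G S2 x y z : ℝ) / (3 * 2 ^ S2.card))) =
      6 * ((cR G S1 x y z : ℝ) * (cR G S2 x y z : ℝ)) /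
        ((3 * 2 ^ S1.card) * (3 * 2 ^ S2.card)) := by
    field_simp
  rw [e7, ← mul_div_assoc, lt_div_iff₀ (mul_pos hN hN'), one_mul] at key'
  refine h.fin_lt (Q := 24 * ((cols G (S1 ∪ S2) 4).card : ℝ)) rfl (key'.trans_le ?_)
  have hg : (24 : ℝ) * ((cols G (S1 ∪ S2) 4).card : ℝ) = (cP G S1 x y z : ℝ) *
      cP G S2 x y z + 2 * ((cQ G S1 x y z : ℝ) * cQ G S2 x y z + (cQ G S1 y z x : ℝ) *
      cQ G S2 y z x + (cQ G S1 x z y : ℝ) * cQ G S2 x z y) + 6 * ((cR G S1 x y z : ℝ) *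
      cR G S2 x y z) := by exact_mod_cast h.glue24
  rw [hg]
  apply mul_le_mul_of_nonneg_left _ hβ.le
  have m0 : (0 : ℝ) ≤ (cP G S1 x y z : ℝ) * cP G S2 x y z := by positivity
  have m1 : (0 : ℝ) ≤ (cQ G S1 x y z : ℝ) * cQ G S2 x y z := by positivity
  have m2 : (0 : ℝ) ≤ (cQ G S1 y z x : ℝ) * cQ G S2 y z x := by positivity
  have m3 : (0 : ℝ) ≤ (cQ G S1 x z y : ℝ) * cQ G S2 x z y := by positivity
  linarith

end Cut

/-- a component of `B` -/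
theorem exists_comp (G : SimpleGraph V) {B : Finset V} (hB : B.Nonempty) :
    ∃ A ⊆ B, Conn G A ∧ ∀ a ∈ A, ∀ b ∈ B, b ∉ A → ¬ G.Adj a b := by
  classical
  let F : Finset (Finset V) := B.powerset.filter fun A =>
    A.Nonempty ∧ ∀ a ∈ A, ∀ b ∈ B, b ∉ A → ¬ G.Adj a b
  have hF : F.Nonempty := ⟨B, mem_filter.2 ⟨mem_powerset.2 subset_rfl, hB,
    fun a _ b hb hb' => absurd hb hb'⟩⟩
  obtain ⟨A, hA, hmin⟩ := exists_min_image F card hF
  obtain ⟨hAB, hA0, hA1⟩ := mem_filter.1 hA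
  rw [mem_powerset] at hAB
  refine ⟨A, hAB, ⟨hA0, fun A' hA' h0 h1 => ?_⟩, hA1⟩
  by_contra hcon
  push Not at hcon
  have hlt : A'.card < A.card := card_lt_card (hA'.ssubset_of_ne h1)
  have := hmin A' (mem_filter.2 ⟨mem_powerset.2 (hA'.trans hAB), h0, fun a ha b hb hb' => by
    by_cases hbA : b ∈ A
    · exact hcon a ha b hbA hb'
    · exact hA1 a (hA' ha) b hb hbA⟩)
  omega

namespace Cut

variable {G : SimpleGraph V} {S1 S2 : Finset V} {x y z : V}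

/-- a component of the interior of side 2 against the rest -/
theorem regroup (h : Cut G S1 S2 x y z) : ∃ S1' S2', Cut G S1' S2' x y z ∧
    S1' ∪ S2' = S1 ∪ S2 ∧ S1' ⊆ S2 ∧ Conn G (S1' \ S2') := by
  obtain ⟨⟨x1, x2⟩, ⟨y1, y2⟩, z1, z2⟩ := h.mem
  obtain ⟨w, hw2, hw1⟩ := not_subset.1 h.n2
  obtain ⟨A, hA, hc, hcl⟩ := exists_comp G (B := S2 \ S1) ⟨w, mem_sdiff.2 ⟨hw2, hw1⟩⟩
  have hAi : ∀ a ∈ A, a ∈ S2 ∧ a ∉ S1 := fun a ha => mem_sdiff.1 (hA ha)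
  have hxA : x ∉ A := fun h' => (hAi x h').2 x1
  have hyA : y ∉ A := fun h' => (hAi y h').2 y1
  have hzA : z ∉ A := fun h' => (hAi z h').2 z1
  have hm : ∀ t, t ∈ insert x (insert y (insert z A)) ↔ t = x ∨ t = y ∨ t = z ∨ t ∈ A := by
    intro t
    rw [mem_insert, mem_insert, mem_insert]
  have hU : insert x (insert y (insert z A)) ∪ (S1 ∪ S2) \ A = S1 ∪ S2 := by
    ext t
    rw [mem_union, hm, mem_sdiff, mem_union]
    constructor
    · rintro ((rfl | rfl | rfl | h') | h')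
      · exact Or.inl x1
      · exact Or.inl y1
      · exact Or.inl z1
      · exact Or.inr (hAi t h').1
      · exact h'.1
    · intro h'
      by_cases ht : t ∈ A
      · exact Or.inl (Or.inr (Or.inr (Or.inr ht)))
      · exact Or.inr ⟨h', ht⟩
  have hdiff : insert x (insert y (insert z A)) \ ((S1 ∪ S2) \ A) = A := by
    ext t
    rw [mem_sdiff, hm, mem_sdiff, mem_union]
    constructor
    · rintro ⟨h1, h2⟩
      by_contra ht
      apply h2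
      refine ⟨?_, ht⟩
      rcases h1 with rfl | rfl | rfl | h1
      · exact Or.inl x1
      · exact Or.inl y1
      · exact Or.inl z1
      · exact absurd h1 ht
    · intro ht
      exact ⟨Or.inr (Or.inr (Or.inr ht)), fun h' => h'.2 ht⟩
  refine ⟨insert x (insert y (insert z A)), (S1 ∪ S2) \ A, ⟨h.xy, h.yz, h.xz, ?_, ?_, ?_, ?_, ?_⟩,
    hU, ?_, ?_⟩
  · ext t
    rw [mem_inter, hm, mem_sdiff, mem_union, mem_insert, mem_insert, mem_singleton]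
    constructor
    · rintro ⟨h1, h2, h3⟩
      rcases h1 with h1 | h1 | h1 | h1
      · exact Or.inl h1
      · exact Or.inr (Or.inl h1)
      · exact Or.inr (Or.inr h1)
      · exact absurd h1 h3
    · rintro (rfl | rfl | rfl)
      · exact ⟨Or.inl rfl, Or.inl x1, hxA⟩
      · exact ⟨Or.inr (Or.inl rfl), Or.inl y1, hyA⟩
      · exact ⟨Or.inr (Or.inr (Or.inl rfl)), Or.inl z1, hzA⟩
  · intro a ha ha' b hb hb' hab
    have haA : a ∈ A := by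
      have : a ∈ insert x (insert y (insert z A)) \ ((S1 ∪ S2) \ A) := mem_sdiff.2 ⟨ha, ha'⟩
      rwa [hdiff] at this
    rw [mem_sdiff, mem_union] at hb
    rw [hm] at hb'
    push Not at hb'
    obtain ⟨a2, a1⟩ := hAi a haA
    by_cases b1 : b ∈ S1
    · by_cases b2 : b ∈ S2
      · rcases h.term b1 b2 with e | e | e
        · exact hb'.1 e
        · exact hb'.2.1 e
        · exact hb'.2.2.1 e
      · exact h.sep b b1 b2 a a2 a1 hab.symm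
    · exact hcl a haA b (mem_sdiff.2 ⟨hb.1.resolve_left b1, b1⟩) hb.2 hab
  · intro hsub
    obtain ⟨a, ha⟩ := hc.1
    have := hsub ((hm a).2 (Or.inr (Or.inr (Or.inr ha))))
    exact (mem_sdiff.1 this).2 ha
  · intro hsub
    obtain ⟨u, hu1, hu2⟩ := not_subset.1 h.n1
    have huA : u ∉ A := fun h' => hu2 (hAi u h').1
    have := hsub (mem_sdiff.2 ⟨mem_union_left _ hu1, huA⟩)
    rw [hm] at this
    rcases this with rfl | rfl | rfl | h'
    · exact hu2 x2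
    · exact hu2 y2
    · exact hu2 z2
    · exact huA h'
  · rw [hU]; exact h.three
  · intro t ht
    rw [hm] at ht
    rcases ht with rfl | rfl | rfl | h'
    · exact x2
    · exact y2
    · exact z2
    · exact (hAi t h').1
  · rw [hdiff]; exact hc

theorem lt1 (h : Cut G S1 S2 x y z) : S1.card < (S1 ∪ S2).card := by
  have h1 := h.cardU
  have h2 := h.symm.card4
  omega

theorem iq1 (h : Cut G S1 S2 x y z) {m : ℕ} (hI : IqLe V m) (hm : m + 1 = (S1 ∪ S2).card) :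
    IqLe V S1.card := by
  intro G' S' hS'
  have := h.lt1
  exact hI G' S' (by omega)

theorem iq2 (h : Cut G S1 S2 x y z) {m : ℕ} (hI : IqLe V m) (hm : m + 1 = (S1 ∪ S2).card) :
    IqLe V S2.card := by
  intro G' S' hS'
  have := h.symm.lt1
  rw [union_comm] at this
  exact hI G' S' (by omega)

/-- all colourings are constant on the cut -/
theorem main3' (hB : BnnS) (h : Cut G S1 S2 x y z) {m : ℕ} (hI : IqLe V m)
    (hm : m + 1 = (S1 ∪ S2).card) (hr : 0 < cR G (S1 ∪ S2) x y z)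
    (q0 : cQ G (S1 ∪ S2) y z x = 0) (q1 : cQ G (S1 ∪ S2) x z y = 0)
    (q2 : cQ G (S1 ∪ S2) x y z = 0) :
    3 * 2 ^ (S1 ∪ S2).card < bet G (S1 ∪ S2) * ((cols G (S1 ∪ S2) 4).card : ℤ) := by
  -- the facts for every grouping
  have facts : ∀ {T1 T2 : Finset V}, Cut G T1 T2 x y z → T1 ∪ T2 = S1 ∪ S2 →
      0 < cR G T1 x y z ∧ 0 < cR G T2 x y z ∧ (cQ G T1 y z x = 0 ∨ cQ G T2 y z x = 0) ∧
      (cQ G T1 x z y = 0 ∨ cQ G T2 x z y = 0) ∧ (cQ G T1 x y z = 0 ∨ cQ G T2 x y z = 0) := by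
    intro T1 T2 k hk
    have g1 := k.glueR
    have g2 := k.rot.glueQ
    have g3 := k.swap.glueQ
    have g4 := k.glueQ
    rw [hk] at g1 g2 g3 g4
    rw [q0, mul_zero] at g2
    rw [q1, mul_zero] at g3
    rw [q2, mul_zero] at g4
    have hpos : 0 < cR G T1 x y z * cR G T2 x y z := by rw [← g1]; omega
    exact ⟨Nat.pos_of_mul_pos_right hpos, Nat.pos_of_mul_pos_left hpos,
      Nat.mul_eq_zero.1 g2.symm, Nat.mul_eq_zero.1 g3.symm, Nat.mul_eq_zero.1 g4.symm⟩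
  have f0 := facts h rfl
  obtain ⟨c, hc, hc1, hc2⟩ := cR_pos.1 hr
  have hadj : ¬ G.Adj x y ∧ ¬ G.Adj y z ∧ ¬ G.Adj x z := by
    have hm' := (mem_cols.1 hc).2.2
    have x1 := mem_union_left S2 h.mem.1.1
    have y1 := mem_union_left S2 h.mem.2.1.1
    have z1 := mem_union_left S2 h.mem.2.2.1
    exact ⟨fun h' => hm' x x1 y y1 h' hc1, fun h' => hm' y y1 z z1 h' (hc1.symm.trans hc2),
      fun h' => hm' x x1 z z1 h' hc2⟩
  obtain ⟨n1, n2, n3⟩ := hadj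
  obtain ⟨T1, T2, k, hk, -, hkc⟩ := h.regroup
  obtain ⟨r1, r2, e0, e1, e2⟩ := facts k hk
  have hmk : m + 1 = (T1 ∪ T2).card := by rw [hk]; exact hm
  by_cases hi : cQ G T2 y z x = 0 ∨ cQ G T2 x z y = 0 ∨ cQ G T2 x y z = 0
  · have := k.main3 hB n1 n2 n3 (k.iq1 hI hmk) (k.iq2 hI hmk) hkc r1 r2 e0 e1 e2 hi
    rw [hk] at this
    exact this
  · push Not at hi
    obtain ⟨i0, i1, i2⟩ := hi
    obtain ⟨U1, U2, l, hl, hsub, hlc⟩ := k.regroup
    have hl' : U1 ∪ U2 = S1 ∪ S2 := hl.trans hk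
    obtain ⟨r1', r2', e0', e1', e2'⟩ := facts l hl'
    have hml : m + 1 = (U1 ∪ U2).card := by rw [hl']; exact hm
    obtain ⟨⟨xU, _⟩, ⟨yU, _⟩, zU, _⟩ := l.mem
    have p0 := cQ_restr hsub yU zU xU (Nat.pos_of_ne_zero i0)
    have := l.main3 hB n1 n2 n3 (l.iq1 hI hml) (l.iq2 hI hml) hlc r1' r2' e0' e1' e2'
      (Or.inl (e0'.resolve_left p0.ne'))
    rw [hl'] at this
    exact this

end Cut

end Pool.Agent.Xu.X2.H44
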