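import Pool.Agent.Lib.MP_144d21_co.X2.QDefs
import Pool.Agent.Lib.MP_144d21_co.X2.H44.Main3b

/-!
# MP_144d21_co, project X2, module CUT3: IQ at a separation of order 3
-/

set_option autoImplicit false

namespace Pool.Agent.Xu.X2.H44

open Finset Pool.Agent.Xu Pool.Agent.Xu.X2

variable {V : Type} [Fintype V] [DecidableEq V]

theorem cut_of {G : SimpleGraph V} {S T P Q : Finset V} (h3 : ThreeConn G S)
    (h : Cut3 G S T P Q) : ∃ S1 S2 x y z, Cut G S1 S2 x y z ∧ S1 ∪ S2 = S := by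
  obtain ⟨x, y, z, hxy, hxz, hyz, hT⟩ := card_eq_three.1 h.card
  have hU : (T ∪ P) ∪ (T ∪ Q) = S := by
    rw [← h.un]
    ext t
    simp only [mem_union]
    tauto
  refine ⟨T ∪ P, T ∪ Q, x, y, z, ⟨hxy, hyz, hxz, ?_, ?_, ?_, ?_, ?_⟩, hU⟩
  · rw [← hT]
    ext t
    simp only [mem_inter, mem_union]
    constructor
    · rintro ⟨h1 | h1, h2 | h2⟩
      · exact h1
      · exact h1
      · exact h2
      · exact absurd h2 (disjoint_left.1 h.pq h1)
    · exact fun h1 => ⟨Or.inl h1, Or.inl h1⟩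
  · intro a ha ha' b hb hb'
    rw [mem_union] at ha hb
    rw [mem_union, not_or] at ha' hb'
    exact h.ne a (ha.resolve_left ha'.1) b (hb.resolve_left hb'.1)
  · intro hs
    obtain ⟨a, ha⟩ := h.pn
    rcases mem_union.1 (hs (mem_union_right T ha)) with h1 | h1
    · exact disjoint_left.1 h.tp h1 ha
    · exact disjoint_left.1 h.pq ha h1
  · intro hs
    obtain ⟨a, ha⟩ := h.qn
    rcases mem_union.1 (hs (mem_union_right T ha)) with h1 | h1
    · exact disjoint_left.1 h.tq h1 ha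
    · exact disjoint_left.1 h.pq h1 ha
  · rw [hU]; exact h3

/-- a pendant terminal can be moved to the other side -/
theorem move {G : SimpleGraph V} {S1 S2 : Finset V} {x y z : V} (h : Cut G S1 S2 x y z)
    (hdeg : ∀ v ∈ S1 ∪ S2, 4 ≤ (nb G (S1 ∪ S2) v).card) (hp : Pd G S1 y) :
    ∃ S1' S2' x' y' z', Cut G S1' S2' x' y' z' ∧ S1' ∪ S2' = S1 ∪ S2 ∧
      S1'.card < S1.card := by
  obtain ⟨⟨x1, x2⟩, ⟨y1, y2⟩, z1, z2⟩ := h.mem
  obtain ⟨w, hw1, hw2, hyw, hw⟩ := h.pd_w hp
  have wx : w ≠ x := fun e => hw2 (e ▸ x2)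
  have wy : w ≠ y := fun e => hw2 (e ▸ y2)
  have wz : w ≠ z := fun e => hw2 (e ▸ z2)
  have hU : S1.erase y ∪ insert w S2 = S1 ∪ S2 := by
    ext t
    rw [mem_union, mem_erase, mem_insert, mem_union]
    constructor
    · rintro (h1 | rfl | h1)
      · exact Or.inl h1.2
      · exact Or.inl hw1
      · exact Or.inr h1
    · rintro (h1 | h1)
      · by_cases hty : t = y
        · exact Or.inr (Or.inr (hty ▸ y2))
        · exact Or.inl ⟨hty, h1⟩
      · exact Or.inr (Or.inr h1)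
  refine ⟨S1.erase y, insert w S2, x, w, z, ⟨wx.symm, wz, h.xz, ?_, ?_, ?_, ?_, ?_⟩, hU,
    card_erase_lt_of_mem y1⟩
  · ext t
    rw [mem_inter, mem_erase, mem_insert, mem_insert, mem_insert, mem_singleton]
    constructor
    · rintro ⟨⟨h1, h2⟩, h3⟩
      rcases h3 with h3 | h3
      · exact Or.inr (Or.inl h3)
      · rcases h.term h2 h3 with h4 | h4 | h4
        · exact Or.inl h4
        · exact absurd h4 h1
        · exact Or.inr (Or.inr h4)
    · rintro (rfl | rfl | rfl)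
      · exact ⟨⟨h.xy, x1⟩, Or.inr x2⟩
      · exact ⟨⟨wy, hw1⟩, Or.inl rfl⟩
      · exact ⟨⟨h.yz.symm, z1⟩, Or.inr z2⟩
  · intro a ha ha' b hb hb' hab
    rw [mem_erase] at ha
    rw [mem_insert, not_or] at ha'
    rw [mem_insert] at hb
    rw [mem_erase, not_and] at hb'
    rcases hb with rfl | hb
    · exact hb' wy hw1
    · by_cases hby : b = y
      · subst hby
        exact ha'.1 (hw a ha.2 hab.symm)
      · exact h.sep a ha.2 ha'.2 b hb (hb' hby) hab
  · intro hs
    have hd := hdeg w (mem_union_left _ hw1)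
    have hsub : nb G (S1 ∪ S2) w ⊆ {x, y, z} := by
      intro t ht
      rw [mem_nb, mem_union] at ht
      have ht1 : t ∈ S1 := by
        by_contra ht1
        exact h.sep w hw1 hw2 t (ht.1.resolve_left ht1) ht1 ht.2
      rw [mem_insert, mem_insert, mem_singleton]
      by_cases hty : t = y
      · exact Or.inr (Or.inl hty)
      · rcases mem_insert.1 (hs (mem_erase.2 ⟨hty, ht1⟩)) with h5 | h5
        · exact absurd (h5 ▸ ht.2) (G.loopless.irrefl w)
        · exact h.term ht1 h5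
    have := card_le_card hsub
    have h3 : ({x, y, z} : Finset V).card ≤ 3 := card_le_three
    omega
  · intro hs
    exact notMem_erase y S1 (hs (mem_insert_of_mem y2))
  · rw [hU]; exact h.three

/-- the terminals form a triangle -/
theorem clique {G : SimpleGraph V} {S1 S2 : Finset V} {x y z : V} (hCH : ChgS)
    (h : Cut G S1 S2 x y z) (h1 : G.Adj x y) (h2 : G.Adj y z) (h3 : G.Adj x z)
    (hne : (cols G (S1 ∪ S2) 4).Nonempty)
    (hI : ∀ (G' : SimpleGraph V) (S' : Finset V), S'.card < (S1 ∪ S2).card → TwoConn G' S' →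
      (cols G' S' 4).Nonempty → IQ G' S') : IQ G (S1 ∪ S2) := by
  obtain ⟨⟨x1, x2⟩, ⟨y1, y2⟩, z1, z2⟩ := h.mem
  have hadd : ∀ a b, (tri G x y z).Adj a b → G.Adj a b := by
    intro a b hab
    rw [tri_adj] at hab
    rcases hab with hab | ⟨hne, ha, hb⟩
    · exact hab
    · rcases ha with rfl | rfl | rfl <;> rcases hb with rfl | rfl | rfl
      · exact absurd rfl hne
      · exact h1
      · exact h3
      · exact h1.symm
      · exact absurd rfl hne
      · exact h2
      · exact h3.symm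
      · exact h2.symm
      · exact absurd rfl hne
  have t1 : TwoConn G S1 := two_congr (fun a _ b _ hab => hadd a b hab) h.tri2
  have t2 : TwoConn G S2 := two_congr (fun a _ b _ hab => hadd a b hab) h.symm.tri2
  have eb := bet_clique3 G S1 S2 x y z h.sep h.inter h1 h2 h3
  have ec := h.glue24
  have e1 := cols_tot (G := G) (S := S1) (x := x) (y := y) (z := z)
  have e2 := cols_tot (G := G) (S := S2) (x := x) (y := y) (z := z)
  rw [cQ_adj x1 y1 h1, cQ_adj y1 z1 h2, cQ_adj x1 z1 h3, cR_adj x1 y1 h1] at ec e1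
  rw [cQ_adj x2 y2 h1, cQ_adj y2 z2 h2, cQ_adj x2 z2 h3, cR_adj x2 y2 h1] at ec e2
  simp only [add_zero, mul_zero] at ec e1 e2
  rw [← e1, ← e2] at ec
  have hpos : 0 < (cols G S1 4).card * (cols G S2 4).card := by
    rw [← ec]
    have := card_pos.2 hne
    omega
  have n1 : (cols G S1 4).Nonempty := card_pos.1 (Nat.pos_of_mul_pos_right hpos)
  have n2 : (cols G S2 4).Nonempty := card_pos.1 (Nat.pos_of_mul_pos_left hpos)
  have l2 := h.symm.lt1
  rw [union_comm] at l2
  obtain ⟨i1, j1⟩ := hI G S1 h.lt1 t1 n1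
  obtain ⟨i2, j2⟩ := hI G S2 l2 t2 n2
  have hc := h.cardU
  have ec' : (24 : ℤ) * ((cols G (S1 ∪ S2) 4).card : ℤ) =
      ((cols G S1 4).card : ℤ) * ((cols G S2 4).card : ℤ) := by exact_mod_cast ec
  have e5 : (bet G S1 * ((cols G S1 4).card : ℤ)) * (bet G S2 * ((cols G S2 4).card : ℤ)) =
      24 * (bet G (S1 ∪ S2) * ((cols G (S1 ∪ S2) 4).card : ℤ)) := by
    rw [eb]
    linear_combination (-(bet G S1 * bet G S2)) * ec'
  have e6 : ((3 : ℤ) * 2 ^ S1.card) * (3 * 2 ^ S2.card) = 24 * (3 * 2 ^ (S1 ∪ S2).card) := by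
    have : (2 : ℤ) ^ S1.card * 2 ^ S2.card = 2 ^ (S1 ∪ S2).card * 2 ^ 3 := by
      rw [← pow_add, ← pow_add, hc]
    linear_combination 9 * this
  have p1 : (0 : ℤ) < 3 * 2 ^ S1.card := by positivity
  have p2 : (0 : ℤ) < 3 * 2 ^ S2.card := by positivity
  refine ⟨?_, fun heq => ?_⟩
  · have := mul_le_mul i1 i2 p2.le (p1.le.trans i1)
    rw [e5, e6] at this
    linarith
  · rw [heq, ← e6] at e5
    have k1 : bet G S1 * ((cols G S1 4).card : ℤ) = 3 * 2 ^ S1.card := by
      refine le_antisymm ?_ i1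
      by_contra hlt
      push Not at hlt
      have := mul_lt_mul hlt i2 p2 (p1.le.trans i1)
      rw [e5] at this
      exact lt_irrefl _ this
    have k2 : bet G S2 * ((cols G S2 4).card : ℤ) = 3 * 2 ^ S2.card := by
      rw [k1] at e5
      exact mul_left_cancel₀ p1.ne' e5
    refine hCH V G S1 S2 h.sep ?_ (j1 k1) (j2 k2)
    intro u hu v hv huv
    rw [h.inter] at hu hv
    simp only [mem_insert, mem_singleton] at hu hv
    exact hadd u v (by rw [tri_adj]; exact Or.inr ⟨huv, hu, hv⟩)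

/-- CUT3 -/
theorem cut3 (hB : BnnS) (hP : BposS) (hCH : ChgS) : Cut3S := by
  intro V _ _ G S h3 hdeg ⟨T, P, Q, hcut⟩ hne hIH
  classical
  -- the smallest side
  let F : Finset (Finset V) := univ.filter fun S1 =>
    ∃ S2 x y z, Cut G S1 S2 x y z ∧ S1 ∪ S2 = S
  have hF : F.Nonempty := by
    obtain ⟨S1, S2, x, y, z, h, hU⟩ := cut_of h3 hcut
    exact ⟨S1, mem_filter.2 ⟨mem_univ _, S2, x, y, z, h, hU⟩⟩
  obtain ⟨S1, hS1, hmin⟩ := exists_min_image F card hF
  obtain ⟨_, S2, x, y, z, h, hU⟩ := mem_filter.1 hS1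
  subst hU
  have nopd : ∀ {x y z : V}, Cut G S1 S2 x y z → ¬ Pd G S1 y := by
    intro x y z k hp
    obtain ⟨S1', S2', x', y', z', k', hU', hlt⟩ := move k hdeg hp
    have := hmin S1' (mem_filter.2 ⟨mem_univ _, S2', x', y', z', k', hU'⟩)
    omega
  have hIq : ∀ (G' : SimpleGraph V) (S' : Finset V), S'.card < (S1 ∪ S2).card →
      TwoConn G' S' → (cols G' S' 4).Nonempty → IQ G' S' :=
    fun G' S' hlt => hIH G' S' (Or.inl hlt)
  by_cases hD : ¬ G.Adj y z ∨ ¬ G.Adj x z ∨ ¬ G.Adj x y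
  · -- strict inequality
    suffices hlt : 3 * 2 ^ (S1 ∪ S2).card < bet G (S1 ∪ S2) *
        ((cols G (S1 ∪ S2) 4).card : ℤ) from ⟨hlt.le, fun e => absurd e hlt.ne'⟩
    have hm : ((S1 ∪ S2).card - 1) + 1 = (S1 ∪ S2).card := by
      have := h.lt1
      omega
    have hIm : IqLe V ((S1 ∪ S2).card - 1) := fun G' S' hle hT hn =>
      (hIq G' S' (by omega) hT hn).1
    by_cases feas : (0 < cP G S1 x y z ∧ 0 < cP G S2 x y z) ∨
        (0 < cQ G S1 y z x ∧ 0 < cQ G S2 y z x) ∨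
        (0 < cQ G S1 x z y ∧ 0 < cQ G S2 x z y) ∨ (0 < cQ G S1 x y z ∧ 0 < cQ G S2 x y z)
    · exact h.main12 hB hP (nopd h.rot.rot) (nopd h) (nopd h.rot) (h.iq1 hIm hm)
        (h.iq2 hIm hm) feas hD
    · simp only [not_or] at feas
      obtain ⟨f0, f1, f2, f3⟩ := feas
      have z0 : ∀ a b c : ℕ, ¬ (0 < a ∧ 0 < b) → a * b = 0 := by
        intro a b _ hab
        rcases Nat.eq_zero_or_pos a with ha | ha
        · rw [ha, zero_mul]
        · rcases Nat.eq_zero_or_pos b with hb | hb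
          · rw [hb, mul_zero]
          · exact absurd ⟨ha, hb⟩ hab
      have g0 := h.glueP
      have g1 := h.rot.glueQ
      have g2 := h.swap.glueQ
      have g3 := h.glueQ
      rw [z0 _ _ 0 f0] at g0
      rw [z0 _ _ 0 f1] at g1
      rw [z0 _ _ 0 f2] at g2
      rw [z0 _ _ 0 f3] at g3
      have ht := cols_tot (G := G) (S := S1 ∪ S2) (x := x) (y := y) (z := z)
      have hc := card_pos.2 hne
      exact h.main3' hB hIm hm (by omega) (by omega) (by omega) (by omega)
  · push Not at hD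
    exact clique hCH h hD.2.2 hD.1 hD.2.1 hne hIq

end Pool.Agent.Xu.X2.H44
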