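import Pool.Agent.Lib.MP_144d21_co.XU.H51.All
import Pool.Agent.Lib.MP_144d21_co.X2.H44.Cut3
import Pool.Agent.Lib.MP_144d21_co.X2.H44.Bpos

/-!
# MP_144d21_co, project X2: CUT3 with the old modules put in
-/

set_option autoImplicit false

namespace Pool.Agent.Xu.X2.H44

open Pool.Agent.Xu Pool.Agent.Xu.X2

theorem bposAll : BposS := bpos Xu.All.thma Xu.All.pert

/-- CUT3 from BNN only -/
theorem cut3all (hB : BnnS) : Cut3S := cut3 hB bposAll Pool.Agent.Xu.H87.chg

end Pool.Agent.Xu.X2.H44
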