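import Pool.Agent.Lib.MP_144d21_co.X2.H44.Cn3
import Pool.Agent.Lib.MP_144d21_co.X2.H16.Cut3

/-!
# MP_144d21_co, project X2: colourings by the pattern on three vertices
-/

set_option autoImplicit false

namespace Pool.Agent.Xu.X2.H44

open Finset Pool.Agent.Xu Pool.Agent.Xu.X2

variable {V : Type} [Fintype V] [DecidableEq V]

theorem mem_cols_add {G : SimpleGraph V} {S : Finset V} {q : ℕ} {v w : V} (hv : v ∈ S)
    (hw : w ∈ S) (hvw : v ≠ w) {c : V → ℕ} :
    c ∈ cols (add G v w) S q ↔ c ∈ cols G S q ∧ c v ≠ c w := by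
  rw [mem_cols, mem_cols]
  constructor
  · rintro ⟨h1, h2, h3⟩
    exact ⟨⟨h1, h2, fun a ha b hb hab => h3 a ha b hb (Or.inl hab)⟩,
      h3 v hv w hw (Or.inr ⟨hvw, Or.inl ⟨rfl, rfl⟩⟩)⟩
  · rintro ⟨⟨h1, h2, h3⟩, h4⟩
    refine ⟨h1, h2, fun a ha b hb hab => ?_⟩
    rcases hab with h5 | ⟨_, ⟨rfl, rfl⟩ | ⟨rfl, rfl⟩⟩
    · exact h3 a ha b hb h5
    · exact h4
    · exact h4.symm

/-- a missing pair is either unequal or equal -/
theorem cols_split {G : SimpleGraph V} {S : Finset V} (q : ℕ) {v w : V} (hv : v ∈ S)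
    (hw : w ∈ S) (hvw : v ≠ w) (h : ¬ G.Adj v w) :
    (cols G S q).card = (cols (add G v w) S q).card + (cols (con G v w) (S.erase v) q).card := by
  have h1 := iColdc V (add G v w) S v w hv hw (Or.inr ⟨hvw, Or.inl ⟨rfl, rfl⟩⟩) q
  have h2 : cols (del (add G v w) v w) S q = cols G S q := by
    apply cols_congr
    intro a _ b _
    rw [del_adj, add_adj]
    constructor
    · rintro ⟨h4 | ⟨_, h4⟩, h2, h3⟩
      · exact h4
      · tauto
    · intro h4
      refine ⟨Or.inl h4, ?_, ?_⟩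
      · rintro ⟨rfl, rfl⟩; exact h h4
      · rintro ⟨rfl, rfl⟩; exact h h4.symm
  have h3 : cols (con (add G v w) v w) (S.erase v) q = cols (con G v w) (S.erase v) q := by
    apply cols_congr
    intro a ha b hb
    rw [mem_erase] at ha hb
    rw [con_adj, con_adj]
    simp only [add_adj]
    constructor
    · rintro ⟨hab, h4⟩
      refine ⟨hab, ?_⟩
      rcases h4 with (h4 | ⟨_, h4⟩) | ⟨h0, h4 | ⟨_, h4⟩⟩ | ⟨h0, h4 | ⟨_, h4⟩⟩
      · exact Or.inl h4
      · rcases h4 with h4 | h4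
        · exact absurd h4.1 ha.1
        · exact absurd h4.2 hb.1
      · exact Or.inr (Or.inl ⟨h0, h4⟩)
      · rcases h4 with h4 | h4
        · exact absurd (h0.trans h4.2.symm) hab
        · exact absurd h4.2 hb.1
      · exact Or.inr (Or.inr ⟨h0, h4⟩)
      · rcases h4 with h4 | h4
        · exact absurd (h0.trans h4.2.symm) hab.symm
        · exact absurd h4.2 ha.1
    · rintro ⟨hab, h4⟩
      exact ⟨hab, h4.imp (fun h => Or.inl h) (fun h => h.imp (fun h => ⟨h.1, Or.inl h.2⟩)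
        (fun h => ⟨h.1, Or.inl h.2⟩))⟩
  rw [h2, h3] at h1
  exact h1

open Classical in
theorem card_con {G : SimpleGraph V} {S : Finset V} (q : ℕ) {v w : V} (hv : v ∈ S)
    (hw : w ∈ S) (hvw : v ≠ w) (h : ¬ G.Adj v w) :
    (cols (con G v w) (S.erase v) q).card = ((cols G S q).filter fun c => c v = c w).card := by
  have h1 := cols_split q hv hw hvw h
  have h2 : cols (add G v w) S q = (cols G S q).filter fun c => ¬ c v = c w := by
    ext c
    rw [mem_filter, mem_cols_add hv hw hvw]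
  have h3 := card_filter_add_card_filter_not (s := cols G S q) (fun c => c v = c w)
  rw [h2] at h1
  omega

/-! ### The counts -/

/-- `x, y, z` have three colours -/
noncomputable def cP (G : SimpleGraph V) (S : Finset V) (x y z : V) : ℕ := by
  classical
  exact ((cols G S 4).filter fun c => c x ≠ c y ∧ c y ≠ c z ∧ c x ≠ c z).card

/-- `x, y` have the same colour, `z` has another one -/
noncomputable def cQ (G : SimpleGraph V) (S : Finset V) (x y z : V) : ℕ := by
  classical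
  exact ((cols G S 4).filter fun c => c x = c y ∧ c x ≠ c z).card

/-- `x, y, z` have the same colour -/
noncomputable def cR (G : SimpleGraph V) (S : Finset V) (x y z : V) : ℕ := by
  classical
  exact ((cols G S 4).filter fun c => c x = c y ∧ c x = c z).card

section

variable {G : SimpleGraph V} {S : Finset V} {x y z : V}

theorem cP_pos : 0 < cP G S x y z ↔
    ∃ c ∈ cols G S 4, c x ≠ c y ∧ c y ≠ c z ∧ c x ≠ c z := by
  unfold cP
  rw [card_pos]
  constructor
  · rintro ⟨c, hc⟩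
    rw [mem_filter] at hc
    exact ⟨c, hc⟩
  · rintro ⟨c, hc⟩
    exact ⟨c, mem_filter.2 hc⟩

theorem cQ_pos : 0 < cQ G S x y z ↔ ∃ c ∈ cols G S 4, c x = c y ∧ c x ≠ c z := by
  unfold cQ
  rw [card_pos]
  constructor
  · rintro ⟨c, hc⟩
    rw [mem_filter] at hc
    exact ⟨c, hc⟩
  · rintro ⟨c, hc⟩
    exact ⟨c, mem_filter.2 hc⟩

theorem cR_pos : 0 < cR G S x y z ↔ ∃ c ∈ cols G S 4, c x = c y ∧ c x = c z := by
  unfold cR
  rw [card_pos]
  constructor
  · rintro ⟨c, hc⟩
    rw [mem_filter] at hc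
    exact ⟨c, hc⟩
  · rintro ⟨c, hc⟩
    exact ⟨c, mem_filter.2 hc⟩

theorem cP_rot : cP G S y z x = cP G S x y z := by
  unfold cP
  congr 1
  apply filter_congr
  intro c _
  constructor
  · rintro ⟨h1, h2, h3⟩; exact ⟨h3.symm, h1, h2.symm⟩
  · rintro ⟨h1, h2, h3⟩; exact ⟨h2, h3.symm, h1.symm⟩

theorem cP_swap : cP G S x z y = cP G S x y z := by
  unfold cP
  congr 1
  apply filter_congr
  intro c _
  constructor
  · rintro ⟨h1, h2, h3⟩; exact ⟨h3, h2.symm, h1⟩
  · rintro ⟨h1, h2, h3⟩; exact ⟨h3, h2.symm, h1⟩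

theorem cR_rot : cR G S y z x = cR G S x y z := by
  unfold cR
  congr 1
  apply filter_congr
  intro c _
  constructor
  · rintro ⟨h1, h2⟩; exact ⟨h2.symm, h2.symm.trans h1⟩
  · rintro ⟨h1, h2⟩; exact ⟨h1.symm.trans h2, h1.symm⟩

theorem cR_swap : cR G S x z y = cR G S x y z := by
  unfold cR
  congr 1
  apply filter_congr
  intro c _
  exact and_comm

theorem cQ_symm : cQ G S y x z = cQ G S x y z := by
  unfold cQ
  congr 1
  apply filter_congr
  intro c _
  constructor
  · rintro ⟨h1, h2⟩; exact ⟨h1.symm, fun h => h2 (h1.trans h)⟩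
  · rintro ⟨h1, h2⟩; exact ⟨h1.symm, fun h => h2 (h1.trans h)⟩

theorem cQ_adj (hx : x ∈ S) (hy : y ∈ S) (h : G.Adj x y) : cQ G S x y z = 0 := by
  by_contra hne
  obtain ⟨c, hc, h1, _⟩ := cQ_pos.1 (Nat.pos_of_ne_zero hne)
  exact (mem_cols.1 hc).2.2 x hx y hy h h1

theorem cR_adj (hx : x ∈ S) (hy : y ∈ S) (h : G.Adj x y) : cR G S x y z = 0 := by
  by_contra hne
  obtain ⟨c, hc, h1, _⟩ := cR_pos.1 (Nat.pos_of_ne_zero hne)
  exact (mem_cols.1 hc).2.2 x hx y hy h h1

/-- the total -/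
theorem cols_tot : (cols G S 4).card =
    cP G S x y z + cQ G S x y z + cQ G S y z x + cQ G S x z y + cR G S x y z := by
  classical
  have h1 := card_filter_add_card_filter_not (s := cols G S 4) (fun c => c x = c y)
  have h2 := card_filter_add_card_filter_not
    (s := (cols G S 4).filter fun c => c x = c y) (fun c => c x = c z)
  have h3 := card_filter_add_card_filter_not
    (s := (cols G S 4).filter fun c => ¬ c x = c y) (fun c => c y = c z)
  have h4 := card_filter_add_card_filter_not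
    (s := ((cols G S 4).filter fun c => ¬ c x = c y).filter fun c => ¬ c y = c z)
    (fun c => c x = c z)
  simp only [filter_filter] at h2 h3 h4
  unfold cP cQ cR
  have e1 : ((cols G S 4).filter fun c => c y = c z ∧ c y ≠ c x) =
      (cols G S 4).filter fun c => ¬ c x = c y ∧ c y = c z := by
    apply filter_congr
    intro c _
    constructor
    · rintro ⟨a, b⟩; exact ⟨fun h => b h.symm, a⟩
    · rintro ⟨a, b⟩; exact ⟨b, fun h => a h.symm⟩
  have e2 : ((cols G S 4).filter fun c => c x = c z ∧ c x ≠ c y) =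
      (cols G S 4).filter fun c => (¬ c x = c y ∧ ¬ c y = c z) ∧ c x = c z := by
    apply filter_congr
    intro c _
    constructor
    · rintro ⟨a, b⟩; exact ⟨⟨b, fun h => b (a.trans h.symm)⟩, a⟩
    · rintro ⟨⟨a, b⟩, c⟩; exact ⟨c, a⟩
  have e3 : ((cols G S 4).filter fun c => c x ≠ c y ∧ c y ≠ c z ∧ c x ≠ c z) =
      (cols G S 4).filter fun c => (¬ c x = c y ∧ ¬ c y = c z) ∧ ¬ c x = c z := by
    apply filter_congr
    intro c _
    rw [and_assoc]
  rw [e1, e2, e3]
  have e4 : ((cols G S 4).filter fun c => c x = c y ∧ c x ≠ c z) =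
    (cols G S 4).filter fun c => c x = c y ∧ ¬ c x = c z := rfl
  rw [e4]
  omega

theorem cols_tri (hx : x ∈ S) (hy : y ∈ S) (hz : z ∈ S) (hxy : x ≠ y) (hyz : y ≠ z)
    (hxz : x ≠ z) : (cols (tri G x y z) S 4).card = cP G S x y z := by
  unfold cP tri
  congr 1
  ext c
  rw [mem_filter, mem_cols_add hx hz hxz, mem_cols_add hy hz hyz, mem_cols_add hx hy hxy]
  tauto

/-- one pair is unequal -/
theorem cols_add (hx : x ∈ S) (hz : z ∈ S) (hxz : x ≠ z) :
    (cols (add G x z) S 4).card = cP G S x y z + cQ G S x y z + cQ G S y z x := by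
  classical
  have h1 : cols (add G x z) S 4 = (cols G S 4).filter fun c => ¬ c x = c z := by
    ext c
    rw [mem_filter, mem_cols_add hx hz hxz]
  have h2 := cols_tot (G := G) (S := S) (x := x) (y := y) (z := z)
  have h3 := card_filter_add_card_filter_not (s := cols G S 4) (fun c => c x = c z)
  have h4 : ((cols G S 4).filter fun c => c x = c z).card =
      cQ G S x z y + cR G S x y z := by
    have h5 := card_filter_add_card_filter_not
      (s := (cols G S 4).filter fun c => c x = c z) (fun c => c x = c y)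
    simp only [filter_filter] at h5
    rw [← h5]
    unfold cQ cR
    have e : ((cols G S 4).filter fun c => c x = c z ∧ c x = c y) =
        (cols G S 4).filter fun c => c x = c y ∧ c x = c z := by
      apply filter_congr
      intro c _
      exact and_comm
    rw [e, add_comm]
  rw [h1]
  omega

open Classical in
theorem cols_con (hx : x ∈ S) (hy : y ∈ S) (hxy : x ≠ y) (h : ¬ G.Adj x y) :
    (cols (con G x y) (S.erase x) 4).card = cQ G S x y z + cR G S x y z := by
  rw [card_con 4 hx hy hxy h]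
  have h5 := card_filter_add_card_filter_not
    (s := (cols G S 4).filter fun c => c x = c y) (fun c => c x = c z)
  simp only [filter_filter] at h5
  rw [← h5]
  unfold cQ cR
  rw [add_comm]

theorem con_tri_adj {a b : V} (ha : a ≠ x) (hb : b ≠ x) (hxy : x ≠ y) (hyz : y ≠ z)
    (hxz : x ≠ z) : (con (tri G x y z) x y).Adj a b ↔ (con (add G x z) x y).Adj a b ∨
      (a ≠ b ∧ (a = y ∧ b = z ∨ a = z ∧ b = y)) := by
  rw [con_adj, con_adj]
  simp only [add_adj, tri_adj]
  constructor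
  · rintro ⟨hab, h⟩
    rcases h with (h | ⟨_, h1, h2⟩) | ⟨h0, h | ⟨h4, h1, h2⟩⟩ | ⟨h0, h | ⟨h4, h1, h2⟩⟩
    · exact Or.inl ⟨hab, Or.inl (Or.inl h)⟩
    · right
      refine ⟨hab, ?_⟩
      rcases h1 with h1 | h1 | h1
      · exact absurd h1 ha
      · rcases h2 with h2 | h2 | h2
        · exact absurd h2 hb
        · exact absurd (h1.trans h2.symm) hab
        · exact Or.inl ⟨h1, h2⟩
      · rcases h2 with h2 | h2 | h2
        · exact absurd h2 hb
        · exact Or.inr ⟨h1, h2⟩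
        · exact absurd (h1.trans h2.symm) hab
    · exact Or.inl ⟨hab, Or.inr (Or.inl ⟨h0, Or.inl h⟩)⟩
    · right
      refine ⟨hab, ?_⟩
      rcases h2 with h2 | h2 | h2
      · exact absurd h2 hb
      · exact absurd (h0.trans h2.symm) hab
      · exact Or.inl ⟨h0, h2⟩
    · exact Or.inl ⟨hab, Or.inr (Or.inr ⟨h0, Or.inl h⟩)⟩
    · right
      refine ⟨hab, ?_⟩
      rcases h2 with h2 | h2 | h2
      · exact absurd h2 ha
      · exact absurd (h0.trans h2.symm) hab.symm
      · exact Or.inr ⟨h2, h0⟩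
  · rintro (⟨hab, h⟩ | ⟨hab, h⟩)
    · refine ⟨hab, ?_⟩
      rcases h with (h | ⟨_, h⟩) | ⟨h0, h | ⟨h4, h⟩⟩ | ⟨h0, h | ⟨h4, h⟩⟩
      · exact Or.inl (Or.inl h)
      · rcases h with h | h
        · exact absurd h.1 ha
        · exact absurd h.2 hb
      · exact Or.inr (Or.inl ⟨h0, Or.inl h⟩)
      · refine Or.inr (Or.inl ⟨h0, Or.inr ⟨h4, Or.inl trivial, ?_⟩⟩)
        rcases h with h | h
        · exact Or.inr (Or.inr h.2)
        · exact absurd h.1 hxz
      · exact Or.inr (Or.inr ⟨h0, Or.inl h⟩)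
      · refine Or.inr (Or.inr ⟨h0, Or.inr ⟨h4, Or.inl trivial, ?_⟩⟩)
        rcases h with h | h
        · exact Or.inr (Or.inr h.2)
        · exact absurd h.1 hxz
    · refine ⟨hab, Or.inl (Or.inr ⟨hab, ?_⟩)⟩
      rcases h with ⟨rfl, rfl⟩ | ⟨rfl, rfl⟩
      · exact ⟨Or.inr (Or.inl rfl), Or.inr (Or.inr rfl)⟩
      · exact ⟨Or.inr (Or.inr rfl), Or.inr (Or.inl rfl)⟩

theorem con_tri_adj' {a b : V} (ha : a ≠ x) (hb : b ≠ x) (hxy : x ≠ y) (hyz : y ≠ z)
    (hxz : x ≠ z) : (con (tri G x y z) x y).Adj a b ↔ (con (add G x z) x y).Adj a b := by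
  rw [con_tri_adj ha hb hxy hyz hxz]
  constructor
  · rintro (h | ⟨hab, ⟨rfl, rfl⟩ | ⟨rfl, rfl⟩⟩)
    · exact h
    · rw [con_adj]
      exact ⟨hab, Or.inr (Or.inl ⟨rfl, Or.inr ⟨hxz, Or.inl ⟨rfl, rfl⟩⟩⟩)⟩
    · rw [con_adj]
      exact ⟨hab, Or.inr (Or.inr ⟨rfl, Or.inr ⟨hxz, Or.inl ⟨rfl, rfl⟩⟩⟩)⟩
  · exact fun h => Or.inl h

/-- exactly the pair `x, y` is equal -/
theorem cols_con_tri (hx : x ∈ S) (hy : y ∈ S) (hz : z ∈ S) (hxy : x ≠ y) (hyz : y ≠ z)
    (hxz : x ≠ z) (h : ¬ G.Adj x y) :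
    (cols (con (tri G x y z) x y) (S.erase x) 4).card = cQ G S x y z := by
  classical
  have e1 : cols (con (tri G x y z) x y) (S.erase x) 4 =
      cols (con (add G x z) x y) (S.erase x) 4 := by
    apply cols_congr
    intro a ha b hb
    rw [mem_erase] at ha hb
    exact con_tri_adj' ha.1 hb.1 hxy hyz hxz
  have h' : ¬ (add G x z).Adj x y := by
    rw [add_adj]
    rintro (h1 | ⟨_, h1 | h1⟩)
    · exact h h1
    · exact hyz h1.2
    · exact hxz h1.1
  rw [e1, card_con 4 hx hy hxy h']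
  unfold cQ
  congr 1
  ext c
  rw [mem_filter, mem_filter, mem_cols_add hx hz hxz]
  tauto

/-- the pair `x, y` may be equal -/
theorem cols_del_tri (hx : x ∈ S) (hy : y ∈ S) (hz : z ∈ S) (hxy : x ≠ y) (hyz : y ≠ z)
    (hxz : x ≠ z) (h : ¬ G.Adj x y) :
    (cols (del (tri G x y z) x y) S 4).card = cP G S x y z + cQ G S x y z := by
  rw [iColdc V (tri G x y z) S x y hx hy (by rw [tri_adj]; tauto) 4,
    cols_tri hx hy hz hxy hyz hxz, cols_con_tri hx hy hz hxy hyz hxz h]

/-- all three are equal -/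
theorem cols_conT (hx : x ∈ S) (hy : y ∈ S) (hz : z ∈ S) (hxy : x ≠ y) (hyz : y ≠ z)
    (hxz : x ≠ z) (h1 : ¬ G.Adj x y) (h2 : ¬ G.Adj y z) (h3 : ¬ G.Adj x z) :
    (cols (con (con G x y) y z) ((S.erase x).erase y) 4).card = cR G S x y z := by
  have hn : ¬ (con G x y).Adj y z := by
    rw [con_adj]
    rintro ⟨_, h | ⟨_, h⟩ | ⟨h, _⟩⟩
    · exact h2 h
    · exact h3 h
    · exact hyz h.symm
  have e1 := cols_split (G := con G x y) (S := S.erase x) 4 (v := y) (w := z)
    (mem_erase.2 ⟨hxy.symm, hy⟩) (mem_erase.2 ⟨hxz.symm, hz⟩) hyz hn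
  rw [cols_con (z := z) hx hy hxy h1] at e1
  have e2 : cols (add (con G x y) y z) (S.erase x) 4 =
      cols (con (tri G x y z) x y) (S.erase x) 4 := by
    apply cols_congr
    intro a ha b hb
    rw [mem_erase] at ha hb
    rw [con_tri_adj ha.1 hb.1 hxy hyz hxz, add_adj, con_adj, con_adj]
    simp only [add_adj]
    constructor
    · rintro (⟨h, h'⟩ | h)
      · exact Or.inl ⟨h, h'.imp Or.inl (fun h => h.imp (fun h => ⟨h.1, Or.inl h.2⟩)
          (fun h => ⟨h.1, Or.inl h.2⟩))⟩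
      · exact Or.inr h
    · rintro (⟨hab, h⟩ | h)
      · rcases h with (h | ⟨_, h⟩) | ⟨h0, h | ⟨h4, h⟩⟩ | ⟨h0, h | ⟨h4, h⟩⟩
        · exact Or.inl ⟨hab, Or.inl h⟩
        · rcases h with h | h
          · exact absurd h.1 ha.1
          · exact absurd h.2 hb.1
        · exact Or.inl ⟨hab, Or.inr (Or.inl ⟨h0, h⟩)⟩
        · rcases h with h | h
          · exact Or.inr ⟨hab, Or.inl ⟨h0, h.2⟩⟩
          · exact absurd h.1 hxz
        · exact Or.inl ⟨hab, Or.inr (Or.inr ⟨h0, h⟩)⟩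
        · rcases h with h | h
          · exact Or.inr ⟨hab, Or.inr ⟨h.2, h0⟩⟩
          · exact absurd h.1 hxz
      · exact Or.inr h
  rw [e2, cols_con_tri hx hy hz hxy hyz hxz h1] at e1
  omega

end

/-! ### Gluing -/

namespace Cut

variable {G : SimpleGraph V} {S1 S2 : Finset V} {x y z : V}

theorem glueP (h : Cut G S1 S2 x y z) :
    24 * cP G (S1 ∪ S2) x y z = cP G S1 x y z * cP G S2 x y z := by
  obtain ⟨⟨x1, x2⟩, ⟨y1, y2⟩, z1, z2⟩ := h.mem
  have hc3 : (S1 ∩ S2).card = 3 := by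
    rw [h.inter]
    exact card_eq_three.2 ⟨x, y, z, h.xy, h.xz, h.yz, rfl⟩
  have hg := iGlue V (tri G x y z) S1 S2 (sep_tri h.sep x y z (by rw [h.inter])) (by
    intro u hu v hv huv
    rw [h.inter] at hu hv
    simp only [mem_insert, mem_singleton] at hu hv
    rw [tri_adj]
    exact Or.inr ⟨huv, hu, hv⟩) 4
  rw [hc3, cols_tri x1 y1 z1 h.xy h.yz h.xz, cols_tri x2 y2 z2 h.xy h.yz h.xz,
    cols_tri (mem_union_left _ x1) (mem_union_left _ y1) (mem_union_left _ z1) h.xy h.yz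
      h.xz] at hg
  have e : Nat.descFactorial 4 3 = 24 := by decide
  rw [e] at hg
  exact hg

theorem glueQ (h : Cut G S1 S2 x y z) :
    12 * cQ G (S1 ∪ S2) x y z = cQ G S1 x y z * cQ G S2 x y z := by
  obtain ⟨⟨x1, x2⟩, ⟨y1, y2⟩, z1, z2⟩ := h.mem
  by_cases hxy : G.Adj x y
  · rw [cQ_adj x1 y1 hxy, cQ_adj (mem_union_left _ x1) (mem_union_left _ y1) hxy]
    simp
  have hI : S1.erase x ∩ S2.erase x = {y, z} := by
    rw [inter_erase, h.inter]
    ext u
    simp only [mem_erase, mem_insert, mem_singleton]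
    constructor
    · rintro ⟨h1, h2⟩
      exact h2.resolve_left h1
    · rintro (rfl | rfl)
      · exact ⟨h.xy.symm, Or.inr (Or.inl rfl)⟩
      · exact ⟨h.xz.symm, Or.inr (Or.inr rfl)⟩
  have hsT := sep_tri h.sep x y z (by rw [h.inter])
  have hyz : (con (tri G x y z) x y).Adj y z :=
    ⟨h.yz, Or.inl (by rw [tri_adj]; exact Or.inr ⟨h.yz, Or.inr (Or.inl rfl), Or.inr (Or.inr rfl)⟩)⟩
  have hg := iGlue V (con (tri G x y z) x y) (S1.erase x) (S2.erase x)
    (sep_con hsT x y y1 y2) (by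
    intro u hu v hv huv
    rw [hI, mem_insert, mem_singleton] at hu hv
    rcases hu with rfl | rfl <;> rcases hv with rfl | rfl
    · exact absurd rfl huv
    · exact hyz
    · exact hyz.symm
    · exact absurd rfl huv) 4
  rw [hI, card_pair h.yz, ← union_erase, cols_con_tri x1 y1 z1 h.xy h.yz h.xz hxy,
    cols_con_tri x2 y2 z2 h.xy h.yz h.xz hxy,
    cols_con_tri (mem_union_left _ x1) (mem_union_left _ y1) (mem_union_left _ z1) h.xy h.yz
      h.xz hxy] at hg
  have e : Nat.descFactorial 4 2 = 12 := by decide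
  rw [e] at hg
  exact hg

theorem glueR (h : Cut G S1 S2 x y z) :
    4 * cR G (S1 ∪ S2) x y z = cR G S1 x y z * cR G S2 x y z := by
  obtain ⟨⟨x1, x2⟩, ⟨y1, y2⟩, z1, z2⟩ := h.mem
  by_cases h1 : G.Adj x y
  · rw [cR_adj x1 y1 h1, cR_adj (mem_union_left _ x1) (mem_union_left _ y1) h1]
    simp
  by_cases h2 : G.Adj y z
  · rw [← cR_rot, ← cR_rot (S := S1), cR_adj y1 z1 h2,
      cR_adj (mem_union_left _ y1) (mem_union_left _ z1) h2]
    simp
  by_cases h3 : G.Adj x z
  · rw [← cR_swap, ← cR_swap (S := S1), cR_adj x1 z1 h3,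
      cR_adj (mem_union_left _ x1) (mem_union_left _ z1) h3]
    simp
  have hI : (S1.erase x).erase y ∩ (S2.erase x).erase y = {z} := by
    rw [inter_erase, inter_erase, h.inter]
    ext u
    simp only [mem_erase, mem_insert, mem_singleton]
    constructor
    · rintro ⟨h1, h2, h3⟩
      exact (h3.resolve_left h2).resolve_left h1
    · rintro rfl
      exact ⟨h.yz.symm, h.xz.symm, Or.inr (Or.inr rfl)⟩
  have hg := iGlue V (con (con G x y) y z) ((S1.erase x).erase y) ((S2.erase x).erase y)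
    (sep_con (sep_con h.sep x y y1 y2) y z (mem_erase.2 ⟨h.xz.symm, z1⟩)
      (mem_erase.2 ⟨h.xz.symm, z2⟩)) (by
    intro u hu v hv huv
    rw [hI, mem_singleton] at hu hv
    exact absurd (hu.trans hv.symm) huv) 4
  rw [hI, card_singleton, ← union_erase, ← union_erase, cols_conT x1 y1 z1 h.xy h.yz h.xz h1 h2 h3,
    cols_conT x2 y2 z2 h.xy h.yz h.xz h1 h2 h3,
    cols_conT (mem_union_left _ x1) (mem_union_left _ y1) (mem_union_left _ z1) h.xy h.yz
      h.xz h1 h2 h3] at hg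
  have e : Nat.descFactorial 4 1 = 4 := by decide
  rw [e] at hg
  exact hg

/-- the gluing formula for 4-colourings -/
theorem glue24 (h : Cut G S1 S2 x y z) : 24 * (cols G (S1 ∪ S2) 4).card =
    cP G S1 x y z * cP G S2 x y z + 2 * (cQ G S1 x y z * cQ G S2 x y z +
      cQ G S1 y z x * cQ G S2 y z x + cQ G S1 x z y * cQ G S2 x z y) +
      6 * (cR G S1 x y z * cR G S2 x y z) := by
  have h1 := h.glueP
  have h2 := h.glueQ
  have h3 := h.rot.glueQ
  have h4 := h.swap.glueQ
  have h5 := h.glueR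
  have h6 := cols_tot (G := G) (S := S1 ∪ S2) (x := x) (y := y) (z := z)
  omega

end Cut

end Pool.Agent.Xu.X2.H44
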