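import Pool.Agent.Lib.MP_144d21_co.XU.H43.Conn3

/-!
# MP_144d21_co, project X2: connectivity of the sides of a cut with three vertices
-/

set_option autoImplicit false

namespace Pool.Agent.Xu.X2.H44

open Finset Pool.Agent.Xu Pool.Agent.Xu.H43

variable {V : Type} [DecidableEq V]

theorem three_of {G : SimpleGraph V} {S : Finset V} (h4 : 4 ≤ S.card)
    (h : ∀ R ⊆ S, R.card ≤ 2 → Conn G (S \ R)) : ThreeConn G S := by
  refine ⟨h4, two_of (by omega) fun R hR h1 => h R hR (by omega), fun x hx y hy hxy => ?_⟩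
  have he : (S.erase x).erase y = S \ {x, y} := by
    ext t
    simp only [mem_sdiff, mem_insert, mem_singleton, mem_erase]
    tauto
  rw [he]
  refine h {x, y} ?_ (by rw [card_pair hxy])
  intro t ht
  rw [mem_insert, mem_singleton] at ht
  rcases ht with rfl | rfl
  · exact hx
  · exact hy

theorem conn_congr {G H : SimpleGraph V} {S : Finset V}
    (h : ∀ u ∈ S, ∀ v ∈ S, G.Adj u v → H.Adj u v) (hc : Conn G S) : Conn H S := by
  refine ⟨hc.1, fun A hA h0 h1 => ?_⟩
  obtain ⟨a, ha, b, hb, hbA, hab⟩ := hc.2 A hA h0 h1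
  exact ⟨a, ha, b, hb, hbA, h a (hA ha) b hb hab⟩

theorem two_congr {G H : SimpleGraph V} {S : Finset V}
    (h : ∀ u ∈ S, ∀ v ∈ S, G.Adj u v → H.Adj u v) (hc : TwoConn G S) : TwoConn H S :=
  ⟨hc.1, conn_congr h hc.2.1, fun v hv => conn_congr
    (fun a ha b hb => h a (mem_of_mem_erase ha) b (mem_of_mem_erase hb)) (hc.2.2 v hv)⟩

theorem three_congr {G H : SimpleGraph V} {S : Finset V}
    (h : ∀ u ∈ S, ∀ v ∈ S, G.Adj u v → H.Adj u v) (hc : ThreeConn G S) : ThreeConn H S :=
  ⟨hc.1, two_congr h hc.2.1, fun x hx y hy hxy => conn_congr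
    (fun a ha b hb => h a (mem_of_mem_erase (mem_of_mem_erase ha)) b
      (mem_of_mem_erase (mem_of_mem_erase hb))) (hc.2.2 x hx y hy hxy)⟩

theorem three_erase {G : SimpleGraph V} {S : Finset V} (h : ThreeConn G S) {v : V} (hv : v ∈ S) :
    TwoConn G (S.erase v) := by
  have h4 := h.1
  have hc : (S.erase v).card = S.card - 1 := card_erase_of_mem hv
  exact ⟨by omega, h.2.1.2.2 v hv, fun u hu => h.2.2 v hv u (mem_of_mem_erase hu)
    (mem_erase.1 hu).1.symm⟩

/-- adding a vertex with a neighbour -/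
theorem conn_insert {G : SimpleGraph V} {S : Finset V} (h : Conn G S) {v n : V} (hv : v ∉ S)
    (hn : n ∈ S) (hvn : G.Adj v n) : Conn G (insert v S) := by
  refine ⟨⟨v, mem_insert_self v S⟩, fun A hA h0 h1 => ?_⟩
  by_cases hA0 : (A.erase v).Nonempty
  · by_cases hA1 : A.erase v = S
    · have hvA : v ∉ A := by
        intro hvA
        apply h1
        rw [← hA1, insert_erase hvA]
      refine ⟨n, ?_, v, mem_insert_self v S, hvA, hvn.symm⟩
      rw [← hA1] at hn
      exact mem_of_mem_erase hn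
    · obtain ⟨a, ha, b, hb, hbA, hab⟩ := h.2 (A.erase v) (by
        intro t ht
        rw [mem_erase] at ht
        exact (mem_insert.1 (hA ht.2)).resolve_left ht.1) hA0 hA1
      refine ⟨a, mem_of_mem_erase ha, b, mem_insert_of_mem hb, fun h' => hbA ?_, hab⟩
      rw [mem_erase]
      refine ⟨?_, h'⟩
      rintro rfl
      exact hv hb
  · rw [not_nonempty_iff_eq_empty] at hA0
    have hAv : A = {v} := by
      obtain ⟨t, ht⟩ := h0
      have h2 : ∀ s ∈ A, s = v := by
        intro s hs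
        by_contra hsv
        have : s ∈ A.erase v := mem_erase.2 ⟨hsv, hs⟩
        rw [hA0] at this
        exact notMem_empty s this
      ext s
      rw [mem_singleton]
      exact ⟨h2 s, fun h => by rw [h, ← h2 t ht]; exact ht⟩
    refine ⟨v, by rw [hAv]; exact mem_singleton_self v, n, mem_insert_of_mem hn, ?_, hvn⟩
    rw [hAv, mem_singleton]
    rintro rfl
    exact hv hn

/-- adding a vertex with two neighbours to a 2-connected graph -/
theorem two_ear {G : SimpleGraph V} {S : Finset V} {v a b : V} (hv : v ∈ S)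
    (h : TwoConn G (S.erase v)) (hab : a ≠ b) (ha : a ∈ S) (hb : b ∈ S) (hva : G.Adj v a)
    (hvb : G.Adj v b) : TwoConn G S := by
  have ha' : a ∈ S.erase v := mem_erase.2 ⟨hva.ne.symm, ha⟩
  have hb' : b ∈ S.erase v := mem_erase.2 ⟨hvb.ne.symm, hb⟩
  have hS : insert v (S.erase v) = S := insert_erase hv
  refine ⟨h.1.trans (card_le_card (erase_subset v S)), ?_, fun u hu => ?_⟩
  · rw [← hS]
    exact conn_insert h.2.1 (notMem_erase v S) ha' hva
  · by_cases huv : u = v
    · rw [huv]; exact h.2.1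
    · have hu' : u ∈ S.erase v := mem_erase.2 ⟨huv, hu⟩
      have he : S.erase u = insert v ((S.erase v).erase u) := by
        ext t
        simp only [mem_insert, mem_erase]
        constructor
        · intro ht
          by_cases htv : t = v
          · exact Or.inl htv
          · exact Or.inr ⟨ht.1, htv, ht.2⟩
        · rintro (rfl | ht)
          · exact ⟨fun h => huv h.symm, hv⟩
          · exact ⟨ht.1, ht.2.2⟩
      rw [he]
      have hvn : v ∉ (S.erase v).erase u := fun h => (notMem_erase v S) (mem_of_mem_erase h)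
      by_cases hua : a = u
      · refine conn_insert (h.2.2 u hu') hvn (n := b) (mem_erase.2 ⟨?_, hb'⟩) hvb
        rintro rfl
        exact hab hua
      · exact conn_insert (h.2.2 u hu') hvn (n := a) (mem_erase.2 ⟨hua, ha'⟩) hva

/-- the setting: a cut with three vertices -/
structure Cut (G : SimpleGraph V) (S1 S2 : Finset V) (x y z : V) : Prop where
  xy : x ≠ y
  yz : y ≠ z
  xz : x ≠ z
  inter : S1 ∩ S2 = {x, y, z}
  sep : Sep G S1 S2
  n1 : ¬ S1 ⊆ S2
  n2 : ¬ S2 ⊆ S1
  three : ThreeConn G (S1 ∪ S2)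

namespace Cut

variable {G : SimpleGraph V} {S1 S2 : Finset V} {x y z : V}

theorem mem (h : Cut G S1 S2 x y z) : (x ∈ S1 ∧ x ∈ S2) ∧ (y ∈ S1 ∧ y ∈ S2) ∧ z ∈ S1 ∧ z ∈ S2 := by
  simp only [← mem_inter, h.inter, mem_insert, mem_singleton, true_or, or_true, and_self]

theorem term (h : Cut G S1 S2 x y z) {t : V} (h1 : t ∈ S1) (h2 : t ∈ S2) :
    t = x ∨ t = y ∨ t = z := by
  have : t ∈ S1 ∩ S2 := mem_inter.2 ⟨h1, h2⟩
  rwa [h.inter, mem_insert, mem_insert, mem_singleton] at this

theorem symm (h : Cut G S1 S2 x y z) : Cut G S2 S1 x y z where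
  xy := h.xy
  yz := h.yz
  xz := h.xz
  inter := by rw [inter_comm]; exact h.inter
  sep := fun a ha ha' b hb hb' hab => h.sep b hb hb' a ha ha' hab.symm
  n1 := h.n2
  n2 := h.n1
  three := by rw [union_comm]; exact h.three

/-- rotation of the terminals -/
theorem rot (h : Cut G S1 S2 x y z) : Cut G S1 S2 y z x where
  xy := h.yz
  yz := h.xz.symm
  xz := h.xy.symm
  inter := by
    rw [h.inter]
    ext t
    simp only [mem_insert, mem_singleton]
    tauto
  sep := h.sep
  n1 := h.n1
  n2 := h.n2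
  three := h.three

/-- exchange of the second and third terminal -/
theorem swap (h : Cut G S1 S2 x y z) : Cut G S1 S2 x z y where
  xy := h.xz
  yz := h.yz.symm
  xz := h.xy
  inter := by
    rw [h.inter]
    ext t
    simp only [mem_insert, mem_singleton]
    tauto
  sep := h.sep
  n1 := h.n1
  n2 := h.n2
  three := h.three

/-- a set of inner vertices has an edge to the rest of the side, off two removed vertices -/
theorem attach (h : Cut G S1 S2 x y z) {R A : Finset V} (hR : R.card ≤ 2) (hA : A ⊆ S1)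
    (h0 : A.Nonempty) (hAR : Disjoint A R) (hx : x ∉ A) (hy : y ∉ A) (hz : z ∉ A) :
    ∃ a ∈ A, ∃ b ∈ S1, b ∉ R ∧ b ∉ A ∧ G.Adj a b := by
  classical
  obtain ⟨⟨x1, x2⟩, ⟨y1, y2⟩, z1, z2⟩ := h.mem
  have hc := conn3 h.three (R ∩ (S1 ∪ S2)) inter_subset_right
    ((card_le_card inter_subset_left).trans hR)
  have hAS2 : ∀ a ∈ A, a ∉ S2 := by
    intro a ha ha2
    rcases h.term (hA ha) ha2 with rfl | rfl | rfl
    · exact hx ha
    · exact hy ha
    · exact hz ha
  obtain ⟨a, ha, b, hb, hbA, hab⟩ := hc.2 A (by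
      intro a ha
      rw [mem_sdiff, mem_union, mem_inter]
      exact ⟨Or.inl (hA ha), fun h' => (disjoint_left.1 hAR) ha h'.1⟩) h0 (by
      intro he
      have hT : ∃ t ∈ ({x, y, z} : Finset V), t ∉ R := by
        by_contra hcon
        push Not at hcon
        have h3 : ({x, y, z} : Finset V).card = 3 := by
          rw [card_eq_three]
          exact ⟨x, y, z, h.xy, h.xz, h.yz, rfl⟩
        have := card_le_card (show ({x, y, z} : Finset V) ⊆ R from hcon)
        omega
      obtain ⟨t, ht, htR⟩ := hT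
      rw [← h.inter, mem_inter] at ht
      have : t ∈ A := by
        rw [he, mem_sdiff, mem_union, mem_inter]
        exact ⟨Or.inl ht.1, fun h' => htR h'.1⟩
      exact hAS2 t this ht.2)
  rw [mem_sdiff, mem_union, mem_inter, mem_union] at hb
  refine ⟨a, ha, b, ?_, fun h' => hb.2 ⟨h', hb.1⟩, hbA, hab⟩
  by_contra hb1
  exact h.sep a (hA ha) (hAS2 a ha) b (hb.1.resolve_left hb1) hb1 hab

theorem card4 (h : Cut G S1 S2 x y z) : 4 ≤ S1.card := by
  obtain ⟨w, hw1, hw2⟩ := not_subset.1 h.n1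
  have h3 : (S1 ∩ S2).card = 3 := by
    rw [h.inter, card_eq_three]
    exact ⟨x, y, z, h.xy, h.xz, h.yz, rfl⟩
  have : (insert w (S1 ∩ S2)).card = 4 := by
    rw [card_insert_of_notMem, h3]
    exact fun h' => hw2 (mem_inter.1 h').2
  rw [← this]
  exact card_le_card (insert_subset hw1 inter_subset_left)

/-- each terminal has a neighbour inside -/
theorem nbr (h : Cut G S1 S2 x y z) : ∃ w ∈ S1, w ∉ S2 ∧ G.Adj x w := by
  classical
  obtain ⟨⟨x1, x2⟩, ⟨y1, y2⟩, z1, z2⟩ := h.mem
  obtain ⟨w, hw1, hw2⟩ := not_subset.1 h.n1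
  obtain ⟨a, ha, b, hb, hbR, hbA, hab⟩ := h.attach (R := {y, z}) (A := S1 \ S2)
    (card_le_two) sdiff_subset ⟨w, mem_sdiff.2 ⟨hw1, hw2⟩⟩ (by
      rw [disjoint_left]
      intro t ht ht'
      rw [mem_insert, mem_singleton] at ht'
      rw [mem_sdiff] at ht
      rcases ht' with rfl | rfl
      · exact ht.2 y2
      · exact ht.2 z2) (fun h' => (mem_sdiff.1 h').2 x2) (fun h' => (mem_sdiff.1 h').2 y2)
      (fun h' => (mem_sdiff.1 h').2 z2)
  rw [mem_sdiff] at ha
  have hb2 : b ∈ S2 := by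
    by_contra hb2
    exact hbA (mem_sdiff.2 ⟨hb, hb2⟩)
  rw [mem_insert, mem_singleton, not_or] at hbR
  rcases h.term hb hb2 with rfl | rfl | rfl
  · exact ⟨a, ha.1, ha.2, hab.symm⟩
  · exact absurd rfl hbR.1
  · exact absurd rfl hbR.2

end Cut

end Pool.Agent.Xu.X2.H44
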