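import Pool.Agent.Lib.MP_144d21_co.X2.H44.Cn3
import Pool.Agent.Lib.MP_144d21_co.X2.H16.Cut3
import Pool.Agent.Lib.MP_144d21_co.XU.H34.Con2

/-!
# MP_144d21_co, project X2: 2-connected graphs made from one side of a cut with three vertices
-/

set_option autoImplicit false

namespace Pool.Agent.Xu.X2.H44

open Finset Pool.Agent.Xu Pool.Agent.Xu.H43 Pool.Agent.Xu.X2

variable {V : Type} [Fintype V] [DecidableEq V]

theorem tri_of {G : SimpleGraph V} {x y z a b : V} (h : G.Adj a b) : (tri G x y z).Adj a b := by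
  rw [tri_adj]; exact Or.inl h

/-- connectedness from subsets avoiding a given vertex -/
theorem conn_of {G : SimpleGraph V} {S : Finset V} {u : V} (hu : u ∈ S)
    (h : ∀ A ⊆ S, A.Nonempty → u ∉ A → ∃ a ∈ A, ∃ b ∈ S, b ∉ A ∧ G.Adj a b) : Conn G S := by
  refine ⟨⟨u, hu⟩, fun A hA h0 h1 => ?_⟩
  by_cases huA : u ∈ A
  · obtain ⟨a, ha, b, hb, hbA, hab⟩ := h (S \ A) sdiff_subset (by
      rw [sdiff_nonempty]
      exact fun h' => h1 (subset_antisymm hA h')) (fun h' => (mem_sdiff.1 h').2 huA)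
    rw [mem_sdiff] at ha
    refine ⟨b, ?_, a, ha.1, ha.2, hab.symm⟩
    by_contra hb'
    exact hbA (mem_sdiff.2 ⟨hb, hb'⟩)
  · exact h A hA h0 huA

namespace Cut

variable {G : SimpleGraph V} {S1 S2 : Finset V} {x y z : V}

/-- the side with the triangle is 3-connected -/
theorem tri3 (h : Cut G S1 S2 x y z) : ThreeConn (tri G x y z) S1 := by
  obtain ⟨⟨x1, x2⟩, ⟨y1, y2⟩, z1, z2⟩ := h.mem
  refine three_of h.card4 fun R hR hR2 => ?_
  obtain ⟨t, ht, htR⟩ : ∃ t ∈ ({x, y, z} : Finset V), t ∉ R := by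
    by_contra hcon
    push Not at hcon
    have h3 : ({x, y, z} : Finset V).card = 3 := by
      rw [card_eq_three]
      exact ⟨x, y, z, h.xy, h.xz, h.yz, rfl⟩
    have := card_le_card (show ({x, y, z} : Finset V) ⊆ R from hcon)
    omega
  have ht1 : t ∈ S1 := by
    rw [← h.inter, mem_inter] at ht; exact ht.1
  have htT : t = x ∨ t = y ∨ t = z := by
    simpa only [mem_insert, mem_singleton] using ht
  refine conn_of (u := t) (mem_sdiff.2 ⟨ht1, htR⟩) fun A hA h0 htA => ?_
  by_cases hT : ∃ s ∈ A, s = x ∨ s = y ∨ s = z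
  · obtain ⟨s, hs, hsT⟩ := hT
    refine ⟨s, hs, t, mem_sdiff.2 ⟨ht1, htR⟩, htA, ?_⟩
    rw [tri_adj]
    refine Or.inr ⟨?_, hsT, htT⟩
    rintro rfl
    exact htA hs
  · push Not at hT
    obtain ⟨a, ha, b, hb, hbR, hbA, hab⟩ := h.attach hR2 (fun a ha => (mem_sdiff.1 (hA ha)).1) h0
      (disjoint_left.2 fun a ha => (mem_sdiff.1 (hA ha)).2) (fun h' => (hT x h').1 rfl)
      (fun h' => (hT y h').2.1 rfl) (fun h' => (hT z h').2.2 rfl)
    exact ⟨a, ha, b, mem_sdiff.2 ⟨hb, hbR⟩, hbA, tri_of hab⟩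

theorem tri_xy (h : Cut G S1 S2 x y z) : (tri G x y z).Adj x y := by
  rw [tri_adj]; exact Or.inr ⟨h.xy, Or.inl rfl, Or.inr (Or.inl rfl)⟩

theorem tri2 (h : Cut G S1 S2 x y z) : TwoConn (tri G x y z) S1 := h.tri3.2.1

theorem con2 (h : Cut G S1 S2 x y z) : TwoConn (con (tri G x y z) x y) (S1.erase x) :=
  H34.con2 V _ S1 x y h.tri3 h.mem.1.1 h.mem.2.1.1 h.tri_xy

theorem del2 (h : Cut G S1 S2 x y z) : TwoConn (del (tri G x y z) x y) S1 :=
  H43.del2 V _ S1 x y h.tri3 h.mem.1.1 h.mem.2.1.1 h.tri_xy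

/-- the side with the edge `xz` only, if `y` has two neighbours inside -/
theorem add2 (h : Cut G S1 S2 x y z) {a b : V} (hab : a ≠ b) (ha : a ∈ S1) (hb : b ∈ S1)
    (hya : G.Adj y a) (hyb : G.Adj y b) : TwoConn (add G x z) S1 := by
  have h1 : TwoConn (add G x z) (S1.erase y) := by
    refine two_congr ?_ (three_erase h.tri3 h.mem.2.1.1)
    intro u hu v hv huv
    rw [mem_erase] at hu hv
    rw [tri_adj] at huv
    rw [add_adj]
    rcases huv with h' | ⟨h1, h2, h3⟩
    · exact Or.inl h'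
    · right
      refine ⟨h1, ?_⟩
      rcases h2 with h2 | h2 | h2
      · rcases h3 with h3 | h3 | h3
        · exact absurd (h2.trans h3.symm) h1
        · exact absurd h3 hv.1
        · exact Or.inl ⟨h2, h3⟩
      · exact absurd h2 hu.1
      · rcases h3 with h3 | h3 | h3
        · exact Or.inr ⟨h2, h3⟩
        · exact absurd h3 hv.1
        · exact absurd (h2.trans h3.symm) h1
  exact two_ear h.mem.2.1.1 h1 hab ha hb (Or.inl hya) (Or.inl hyb)

theorem conG_of {a b : V} (ha : a ≠ x) (hb : b ≠ x) (h : G.Adj a b) : (con G x y).Adj a b :=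
  ⟨h.ne, Or.inl h⟩

/-- the contraction of `x` into `y`, if `z` has two neighbours inside -/
theorem cone (h : Cut G S1 S2 x y z) {a b : V} (hab : a ≠ b) (ha : a ∈ S1) (ha2 : a ∉ S2)
    (hb : b ∈ S1) (hb2 : b ∉ S2) (hza : G.Adj z a) (hzb : G.Adj z b) :
    TwoConn (con G x y) (S1.erase x) := by
  obtain ⟨⟨x1, x2⟩, ⟨y1, y2⟩, z1, z2⟩ := h.mem
  have h4 := h.card4
  refine two_of (by rw [card_erase_of_mem x1]; omega) fun R hR hR1 => ?_
  have hxR : x ∉ R := fun h' => (notMem_erase x S1) (hR h')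
  -- an edge of `G` from `a'` to `b'` gives an edge of the contraction
  have key : ∀ a' ∈ S1.erase x, ∀ b' ∈ S1, b' ≠ a' → G.Adj a' b' → a' ≠ y →
      (con G x y).Adj a' (if b' = x then y else b') := by
    intro a' ha' b' hb' hne hadj hay
    by_cases hbx : b' = x
    · subst hbx
      rw [if_pos rfl, con_adj]
      exact ⟨hay, Or.inr (Or.inr ⟨rfl, hadj.symm⟩)⟩
    · rw [if_neg hbx, con_adj]
      exact ⟨hadj.ne, Or.inl hadj⟩
  by_cases hyR : y ∈ R
  · -- remove the contracted vertex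
    have hRy : R = {y} := by
      rw [Finset.card_le_one] at hR1
      ext t
      rw [mem_singleton]
      exact ⟨fun ht => hR1 t ht y hyR, fun ht => ht ▸ hyR⟩
    subst hRy
    have hzm : z ∈ S1.erase x \ {y} := by
      rw [mem_sdiff, mem_erase, mem_singleton]
      exact ⟨⟨h.xz.symm, z1⟩, h.yz.symm⟩
    refine conn_of (u := z) hzm fun A hA h0 hzA => ?_
    obtain ⟨a', ha', b', hb', hbR, hbA, hadj⟩ := h.attach (R := {x, y}) (A := A) card_le_two
      (fun t ht => mem_of_mem_erase (mem_sdiff.1 (hA ht)).1) h0 (by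
        rw [disjoint_left]
        intro t ht ht'
        have := hA ht
        rw [mem_sdiff, mem_erase, mem_singleton] at this
        rw [mem_insert, mem_singleton] at ht'
        tauto) (fun h' => by
          have := hA h'
          rw [mem_sdiff, mem_erase] at this
          exact this.1.1 rfl) (fun h' => by
          have := hA h'
          rw [mem_sdiff, mem_singleton] at this
          exact this.2 rfl) hzA
    rw [mem_insert, mem_singleton, not_or] at hbR
    refine ⟨a', ha', b', ?_, hbA, ⟨hadj.ne, Or.inl hadj⟩⟩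
    rw [mem_sdiff, mem_erase, mem_singleton]
    exact ⟨⟨hbR.1, hb'⟩, hbR.2⟩
  · -- the contracted vertex stays
    have hym : y ∈ S1.erase x \ R := mem_sdiff.2 ⟨mem_erase.2 ⟨h.xy.symm, y1⟩, hyR⟩
    refine conn_of (u := y) hym fun A hA h0 hyA => ?_
    have hxA : x ∉ A := fun h' => notMem_erase x S1 (mem_sdiff.1 (hA h')).1
    have hAS : A ⊆ S1 := fun t ht => mem_of_mem_erase (mem_sdiff.1 (hA ht)).1
    by_cases hA0 : (A.erase z).Nonempty
    · -- some inner vertex
      obtain ⟨a', ha', b', hb', hbR, hbA, hadj⟩ := h.attach (R := insert z R) (A := A.erase z)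
        ((card_insert_le z R).trans (by omega)) (fun t ht => hAS (mem_of_mem_erase ht)) hA0 (by
          rw [disjoint_left]
          intro t ht ht'
          rw [mem_erase] at ht
          rw [mem_insert] at ht'
          rcases ht' with ht' | ht'
          · exact ht.1 ht'
          · exact (mem_sdiff.1 (hA ht.2)).2 ht')
        (fun h' => hxA (mem_of_mem_erase h')) (fun h' => hyA (mem_of_mem_erase h'))
        (notMem_erase z A)
      rw [mem_erase] at ha'
      rw [mem_insert, not_or] at hbR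
      have hbA' : b' ∉ A := fun h' => hbA (mem_erase.2 ⟨hbR.1, h'⟩)
      have hay : a' ≠ y := fun h' => hyA (h' ▸ ha'.2)
      refine ⟨a', ha'.2, if b' = x then y else b', ?_, ?_, key a' (mem_sdiff.1 (hA ha'.2)).1 b'
        hb' hadj.ne.symm hadj hay⟩
      · by_cases hbx : b' = x
        · rw [if_pos hbx]; exact hym
        · rw [if_neg hbx, mem_sdiff, mem_erase]
          exact ⟨⟨hbx, hb'⟩, hbR.2⟩
      · by_cases hbx : b' = x
        · rw [if_pos hbx]; exact hyA
        · rw [if_neg hbx]; exact hbA'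
    · -- only the third terminal
      have hAz : ∀ t ∈ A, t = z := by
        intro t ht
        by_contra htz
        exact hA0 ⟨t, mem_erase.2 ⟨htz, ht⟩⟩
      have hzA : z ∈ A := by
        obtain ⟨t, ht⟩ := h0
        rw [← hAz t ht]; exact ht
      obtain ⟨c, hc1, hc2, hcR, hzc⟩ : ∃ c ∈ S1, c ∉ S2 ∧ c ∉ R ∧ G.Adj z c := by
        by_cases haR : a ∈ R
        · refine ⟨b, hb, hb2, ?_, hzb⟩
          intro hbR
          rw [Finset.card_le_one] at hR1
          exact hab (hR1 a haR b hbR)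
        · exact ⟨a, ha, ha2, haR, hza⟩
      have hcx : c ≠ x := fun h' => hc2 (h' ▸ x2)
      refine ⟨z, hzA, c, ?_, ?_, ⟨hzc.ne, Or.inl hzc⟩⟩
      · rw [mem_sdiff, mem_erase]
        exact ⟨⟨hcx, hc1⟩, hcR⟩
      · intro hcA
        exact hc2 ((hAz c hcA) ▸ z2)

/-- the contraction of the three terminals, if the interior is connected -/
theorem conT (h : Cut G S1 S2 x y z) (hc : Conn G (S1 \ S2)) :
    TwoConn (con (con G x y) y z) ((S1.erase x).erase y) := by
  obtain ⟨⟨x1, x2⟩, ⟨y1, y2⟩, z1, z2⟩ := h.mem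
  have h4 := h.card4
  have hS : ∀ t, t ∈ (S1.erase x).erase y ↔ t = z ∨ (t ∈ S1 ∧ t ∉ S2) := by
    intro t
    rw [mem_erase, mem_erase]
    constructor
    · rintro ⟨h1, h2, h3⟩
      by_cases ht : t ∈ S2
      · rcases h.term h3 ht with h5 | h5 | h5
        · exact absurd h5 h2
        · exact absurd h5 h1
        · exact Or.inl h5
      · exact Or.inr ⟨h3, ht⟩
    · rintro (rfl | ⟨h1, h2⟩)
      · exact ⟨h.yz.symm, h.xz.symm, z1⟩
      · exact ⟨fun e => h2 (e ▸ y2), fun e => h2 (e ▸ x2), h1⟩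
  have hG : ∀ a b, a ∉ S2 → b ∉ S2 → G.Adj a b → (con (con G x y) y z).Adj a b := by
    intro a b ha hb hab
    exact ⟨hab.ne, Or.inl ⟨hab.ne, Or.inl hab⟩⟩
  have hT : ∀ a b, a ∈ S1 → a ∉ S2 → b ∈ S2 → b ∈ S1 → G.Adj a b →
      (con (con G x y) y z).Adj a z := by
    intro a b ha1 ha hb hb1 hab
    have haz : a ≠ z := fun e => ha (e ▸ z2)
    have hay : a ≠ y := fun e => ha (e ▸ y2)
    rw [con_adj]
    refine ⟨haz, ?_⟩
    rcases h.term hb1 hb with rfl | rfl | rfl
    · right; right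
      refine ⟨rfl, ?_⟩
      rw [con_adj]
      exact ⟨hay.symm, Or.inr (Or.inl ⟨rfl, hab.symm⟩)⟩
    · right; right
      refine ⟨rfl, ?_⟩
      rw [con_adj]
      exact ⟨hay.symm, Or.inl hab.symm⟩
    · left
      rw [con_adj]
      exact ⟨haz, Or.inl hab⟩
  have hcard : 2 ≤ ((S1.erase x).erase y).card := by
    rw [card_erase_of_mem (mem_erase.2 ⟨h.xy.symm, y1⟩), card_erase_of_mem x1]
    omega
  refine two_of hcard fun R hR hR1 => ?_
  by_cases hzR : z ∈ R
  · have hRz : R = {z} := by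
      rw [Finset.card_le_one] at hR1
      ext t
      rw [mem_singleton]
      exact ⟨fun ht => hR1 t ht z hzR, fun ht => ht ▸ hzR⟩
    subst hRz
    have he : (S1.erase x).erase y \ {z} = S1 \ S2 := by
      ext t
      rw [mem_sdiff, hS, mem_sdiff, mem_singleton]
      constructor
      · rintro ⟨h1 | h1, h2⟩
        · exact absurd h1 h2
        · exact h1
      · intro h1
        exact ⟨Or.inr h1, fun e => h1.2 (e ▸ z2)⟩
    rw [he]
    refine conn_congr ?_ hc
    intro u hu v hv huv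
    rw [mem_sdiff] at hu hv
    exact hG u v hu.2 hv.2 huv
  · have hzm : z ∈ (S1.erase x).erase y \ R := mem_sdiff.2 ⟨(hS z).2 (Or.inl rfl), hzR⟩
    refine conn_of (u := z) hzm fun A hA h0 hzA => ?_
    have hAi : ∀ t ∈ A, t ∈ S1 ∧ t ∉ S2 := by
      intro t ht
      rcases (hS t).1 (mem_sdiff.1 (hA ht)).1 with h5 | h5
      · exact absurd (h5 ▸ ht) hzA
      · exact h5
    obtain ⟨a', ha', b', hb', hbR, hbA, hadj⟩ := h.attach (R := R) (A := A) (by omega)
      (fun t ht => (hAi t ht).1) h0 (disjoint_left.2 fun t ht => (mem_sdiff.1 (hA ht)).2)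
      (fun h' => (hAi x h').2 x2) (fun h' => (hAi y h').2 y2) hzA
    by_cases hb2 : b' ∈ S2
    · exact ⟨a', ha', z, hzm, hzA, hT a' b' (hAi a' ha').1 (hAi a' ha').2 hb2 hb' hadj⟩
    · exact ⟨a', ha', b', mem_sdiff.2 ⟨(hS b').2 (Or.inr ⟨hb', hb2⟩), hbR⟩, hbA,
        hG a' b' (hAi a' ha').2 hb2 hadj⟩

end Cut

end Pool.Agent.Xu.X2.H44
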