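import Pool.Agent.Lib.MP_144d21_co.X2.H44.Sd3

/-!
# MP_144d21_co, IQ, the 3-cut step: some colouring which is not constant on the cut
-/

set_option autoImplicit false

namespace Pool.Agent.Xu.X2.H44

open Finset Pool.Agent.Xu Pool.Agent.Xu.X2

theorem all3 {P : Fin 3 → Prop} (h0 : P 0) (h1 : P 1) (h2 : P 2) : ∀ e, P e := by
  intro e
  fin_cases e
  · exact h0
  · exact h1
  · exact h2

theorem pair3 {P : Fin 3 → Fin 3 → Prop} (hs : ∀ e f, P e f → P f e) (h01 : P 0 1)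
    (h02 : P 0 2) (h12 : P 1 2) : ∀ e f, e ≠ f → P e f := by
  intro e f hef
  fin_cases e <;> fin_cases f
  · exact absurd rfl hef
  · exact h01
  · exact h02
  · exact hs _ _ h01
  · exact absurd rfl hef
  · exact h12
  · exact hs _ _ h02
  · exact hs _ _ h12
  · exact absurd rfl hef

theorem trip3 {P : Fin 3 → Fin 3 → Fin 3 → Prop} (hs : ∀ e f t, P e f t → P f e t)
    (h01 : P 0 1 2) (h02 : P 0 2 1) (h12 : P 1 2 0) :
    ∀ e f t, e ≠ f → e ≠ t → f ≠ t → P e f t := by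
  intro e f t h1 h2 h3
  fin_cases e <;> fin_cases f
  · exact absurd rfl h1
  · fin_cases t
    · exact absurd rfl h2
    · exact absurd rfl h3
    · exact h01
  · fin_cases t
    · exact absurd rfl h2
    · exact h02
    · exact absurd rfl h3
  · fin_cases t
    · exact absurd rfl h3
    · exact absurd rfl h2
    · exact hs _ _ _ h01
  · exact absurd rfl h1
  · fin_cases t
    · exact h12
    · exact absurd rfl h2
    · exact absurd rfl h3
  · fin_cases t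
    · exact absurd rfl h3
    · exact hs _ _ _ h02
    · exact absurd rfl h2
  · fin_cases t
    · exact hs _ _ _ h12
    · exact absurd rfl h3
    · exact absurd rfl h2
  · exact absurd rfl h1

variable {V : Type} [Fintype V] [DecidableEq V]

/-- the facts about the two pairs at `y` (real numbers) -/
def PF (G : SimpleGraph V) (S : Finset V) (y : V) (A b1 b2 p q1 q2 : ℝ) : Prop :=
  0 ≤ A - b1 - b2 ∧ (¬ Pd G S y → 0 < A - b1 - b2 ∧
    (0 < p + q1 + q2 → 3 * 2 ^ S.card ≤ (A - b1 - b2) * (p + q1 + q2)))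

theorem PF.swap {G : SimpleGraph V} {S : Finset V} {y : V} {A b1 b2 p q1 q2 : ℝ}
    (h : PF G S y A b1 b2 p q1 q2) : PF G S y A b2 b1 p q2 q1 := by
  unfold PF at h ⊢
  have e1 : A - b2 - b1 = A - b1 - b2 := by ring
  have e2 : p + q2 + q1 = p + q1 + q2 := by ring
  rw [e1, e2]
  exact h

namespace Cut

variable {G : SimpleGraph V} {S1 S2 : Finset V} {x y z : V}

theorem pf (hB : BnnS) (hP : BposS) (h : Cut G S1 S2 x y z) (hI : IqLe V S1.card) :
    PF G S1 y (bet (tri G x y z) S1 : ℝ) (bB G S1 x y z : ℝ) (bB G S1 y z x : ℝ)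
      (cP G S1 x y z : ℝ) (cQ G S1 x y z : ℝ) (cQ G S1 y z x : ℝ) := by
  refine ⟨?_, fun hy => ⟨?_, fun hq => ?_⟩⟩
  · have h1 := h.bb_le hB
    have h2 : (bB G S1 x y z : ℝ) + (bB G S1 y z x : ℝ) ≤ (bet (tri G x y z) S1 : ℝ) := by
      exact_mod_cast h1
    linarith
  · have h1 := h.bb_lt hP hy
    have h2 : (bB G S1 x y z : ℝ) + (bB G S1 y z x : ℝ) < (bet (tri G x y z) S1 : ℝ) := by
      exact_mod_cast h1
    linarith
  · have hq' : 0 < cP G S1 x y z + cQ G S1 x y z + cQ G S1 y z x := by exact_mod_cast hq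
    have h1 := h.i4 hI hy hq'
    exact_mod_cast h1

theorem pf_z (hB : BnnS) (hP : BposS) (h : Cut G S1 S2 x y z) (hI : IqLe V S1.card) :
    PF G S1 z (bet (tri G x y z) S1 : ℝ) (bB G S1 y z x : ℝ) (bB G S1 x z y : ℝ)
      (cP G S1 x y z : ℝ) (cQ G S1 y z x : ℝ) (cQ G S1 x z y : ℝ) := by
  have h1 := h.rot.pf hB hP hI
  have e1 : bB G S1 z x y = bB G S1 x z y := h.swap.bB_symm
  have e2 : cQ G S1 z x y = cQ G S1 x z y := cQ_symm
  have e3 : cP G S1 y z x = cP G S1 x y z := cP_rot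
  rw [e1, e2, e3, tri_rot G x y z] at h1
  exact h1

theorem pf_x (hB : BnnS) (hP : BposS) (h : Cut G S1 S2 x y z) (hI : IqLe V S1.card) :
    PF G S1 x (bet (tri G x y z) S1 : ℝ) (bB G S1 x z y : ℝ) (bB G S1 x y z : ℝ)
      (cP G S1 x y z : ℝ) (cQ G S1 x z y : ℝ) (cQ G S1 x y z : ℝ) := by
  have h1 := h.rot.rot.pf hB hP hI
  have e1 : bB G S1 z x y = bB G S1 x z y := h.swap.bB_symm
  have e2 : cQ G S1 z x y = cQ G S1 x z y := cQ_symm
  have e3 : cP G S1 z x y = cP G S1 x y z := cP_rot.trans cP_rot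
  rw [e1, e2, e3, tri_rot G y z x, tri_rot G x y z] at h1
  exact h1

/-- the facts about one pair -/
theorem one (hP : BposS) (h : Cut G S1 S2 x y z) (hI : IqLe V S1.card) :
    (¬ ¬ G.Adj x y → (bB G S1 x y z : ℝ) = 0 ∧ (cQ G S1 x y z : ℝ) = 0) ∧
    (¬ G.Adj x y → (0 : ℝ) < bB G S1 x y z) ∧
    ((0 : ℝ) < cQ G S1 x y z →
      (3 : ℝ) * 2 ^ S1.card ≤ 2 * (bB G S1 x y z : ℝ) * (cQ G S1 x y z : ℝ)) ∧
    ((0 : ℝ) < (cP G S1 x y z : ℝ) + cQ G S1 x y z → (3 : ℝ) * 2 ^ S1.card ≤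
      ((bet (tri G x y z) S1 : ℝ) - bB G S1 x y z) * ((cP G S1 x y z : ℝ) + cQ G S1 x y z)) ∧
    (0 : ℝ) < (bet (tri G x y z) S1 : ℝ) - bB G S1 x y z := by
  obtain ⟨⟨x1, x2⟩, ⟨y1, y2⟩, z1, z2⟩ := h.mem
  refine ⟨fun h' => ?_, fun h' => ?_, fun h' => ?_, fun h' => ?_, ?_⟩
  · rw [not_not] at h'
    rw [bB_adj h', cQ_adj x1 y1 h']
    simp
  · exact_mod_cast h.b_pos hP h'
  · have h1 := h.i2 hI (by exact_mod_cast h')
    exact_mod_cast h1
  · have h1 := h.i3 hI (by exact_mod_cast h')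
    exact_mod_cast h1
  · have h1 := h.b_lt hP
    have h2 : (bB G S1 x y z : ℝ) < (bet (tri G x y z) S1 : ℝ) := by exact_mod_cast h1
    linarith

/-- recolouring at the second terminal -/
theorem rcF (h : Cut G S1 S2 x y z) (hy : Pd G S1 y) :
    ((0 : ℝ) < cP G S1 x y z → (0 : ℝ) < cQ G S1 x y z ∨ (0 : ℝ) < cQ G S1 y z x) ∧
    ((cP G S1 x y z : ℝ) = 0 → (cQ G S1 x y z : ℝ) = 0 ∧ (cQ G S1 y z x : ℝ) = 0) := by
  obtain ⟨⟨x1, x2⟩, ⟨y1, y2⟩, z1, z2⟩ := h.mem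
  obtain ⟨w, _, _, _, hw⟩ := h.pd_w hy
  refine ⟨fun hp => ?_, fun hp => ?_⟩
  · rcases h.rc hy (by exact_mod_cast hp) with h1 | h1
    · exact Or.inl (by exact_mod_cast h1)
    · exact Or.inr (by exact_mod_cast h1)
  · have hp0 : cP G S1 x y z = 0 := by exact_mod_cast hp
    have h1 : cQ G S1 x y z = 0 := by
      by_contra hne
      have := rcZ h.xy h.yz y1 hw (Nat.pos_of_ne_zero hne)
      omega
    have h2 : cQ G S1 y z x = 0 := by
      by_contra hne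
      have h3 : 0 < cQ G S1 z y x := by
        rw [cQ_symm]; exact Nat.pos_of_ne_zero hne
      have h4 := rcZ h.yz.symm h.xy.symm y1 hw h3
      have h5 : cP G S1 z y x = cP G S1 x y z := by
        rw [← cP_rot, cP_swap]
        exact cP_rot
      omega
    rw [h1, h2]
    simp

/-- the 3-cut formula -/
theorem betc (h : Cut G S1 S2 x y z) : bet G (S1 ∪ S2) =
    bet (tri G x y z) S1 * bet (tri G x y z) S2 - (bB G S1 y z x * bB G S2 y z x +
      bB G S1 x z y * bB G S2 x z y + bB G S1 x y z * bB G S2 x y z) := by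
  classical
  obtain ⟨w, hw1, hw2, hxw⟩ := h.nbr
  obtain ⟨w', hw1', hw2', hxw'⟩ := h.symm.nbr
  have h0 := bet_cut3 G S1 S2 x y z h.xy h.yz h.xz h.inter h.sep
    ⟨w, hw1, hw2, Or.inl hxw.symm⟩ ⟨w', hw1', hw2', Or.inl hxw'.symm⟩
  rw [h0]
  have e1 : bB G S1 x y z * bB G S2 x y z = (if G.Adj x y then 0 else
      bet (con (tri G x y z) x y) (S1.erase x) * bet (con (tri G x y z) x y) (S2.erase x)) := by
    by_cases a : G.Adj x y
    · rw [if_pos a, bB_adj a, zero_mul]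
    · rw [if_neg a, bB_not a, bB_not a]
  have e2 : bB G S1 y z x * bB G S2 y z x = (if G.Adj y z then 0 else
      bet (con (tri G x y z) y z) (S1.erase y) * bet (con (tri G x y z) y z) (S2.erase y)) := by
    by_cases a : G.Adj y z
    · rw [if_pos a, bB_adj a, zero_mul]
    · rw [if_neg a, bB_not a, bB_not a, tri_rot G x y z]
  have e3 : bB G S1 x z y * bB G S2 x z y = (if G.Adj x z then 0 else
      bet (con (tri G x y z) x z) (S1.erase x) * bet (con (tri G x y z) x z) (S2.erase x)) := by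
    by_cases a : G.Adj x z
    · rw [if_pos a, bB_adj a, zero_mul]
    · rw [if_neg a, bB_not a, bB_not a, tri_swap G x y z]
  rw [e1, e2, e3]
  ring

theorem cardU (h : Cut G S1 S2 x y z) : (S1 ∪ S2).card + 3 = S1.card + S2.card := by
  rw [← card_union_add_card_inter, h.inter]
  congr 1
  exact (card_eq_three.2 ⟨x, y, z, h.xy, h.xz, h.yz, rfl⟩).symm

/-- the last step: from the numbers to the graph -/
theorem fin_lt (h : Cut G S1 S2 x y z) {Q : ℝ} (hQ : Q = 24 * ((cols G (S1 ∪ S2) 4).card : ℝ))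
    (key : (3 * 2 ^ S1.card : ℝ) * (3 * 2 ^ S2.card) < (bet G (S1 ∪ S2) : ℝ) * Q) :
    3 * 2 ^ (S1 ∪ S2).card < bet G (S1 ∪ S2) * ((cols G (S1 ∪ S2) 4).card : ℤ) := by
  have hc := h.cardU
  have e : (3 * 2 ^ S1.card : ℝ) * (3 * 2 ^ S2.card) = 24 * (3 * 2 ^ (S1 ∪ S2).card) := by
    have : (2 : ℝ) ^ S1.card * 2 ^ S2.card = 2 ^ (S1 ∪ S2).card * 2 ^ 3 := by
      rw [← pow_add, ← pow_add, hc]
    nlinarith
  rw [e, hQ] at key
  have h1 : (3 : ℝ) * 2 ^ (S1 ∪ S2).card <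
      (bet G (S1 ∪ S2) : ℝ) * ((cols G (S1 ∪ S2) 4).card : ℝ) := by nlinarith
  exact_mod_cast h1

theorem main12 (hB : BnnS) (hP : BposS) (h : Cut G S1 S2 x y z)
    (nx : ¬ Pd G S1 x) (ny : ¬ Pd G S1 y) (nz : ¬ Pd G S1 z)
    (hI : IqLe V S1.card) (hI' : IqLe V S2.card)
    (feas : (0 < cP G S1 x y z ∧ 0 < cP G S2 x y z) ∨ (0 < cQ G S1 y z x ∧ 0 < cQ G S2 y z x) ∨
      (0 < cQ G S1 x z y ∧ 0 < cQ G S2 x z y) ∨ (0 < cQ G S1 x y z ∧ 0 < cQ G S2 x y z))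
    (hD : ¬ G.Adj y z ∨ ¬ G.Adj x z ∨ ¬ G.Adj x y) :
    3 * 2 ^ (S1 ∪ S2).card < bet G (S1 ∪ S2) * ((cols G (S1 ∪ S2) 4).card : ℤ) := by
  classical
  have h' := h.symm
  have A2 := h.one hP hI
  have B2 := h'.one hP hI'
  have A0 := h.rot.one hP hI
  have B0 := h'.rot.one hP hI'
  have A1 := h.swap.one hP hI
  have B1 := h'.swap.one hP hI'
  rw [tri_rot G x y z, cP_rot] at A0 B0
  rw [tri_swap G x y z, cP_swap] at A1 B1
  have p1 := h.pf hB hP hI
  have p1' := h'.pf hB hP hI'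
  have p2 := h.pf_z hB hP hI
  have p2' := h'.pf_z hB hP hI'
  have p0 := h.pf_x hB hP hI
  have p0' := h'.pf_x hB hP hI'
  have key := Pool.Agent.Xu.H35.num44 (3 * 2 ^ S1.card) (3 * 2 ^ S2.card)
    (bet (tri G x y z) S1 : ℝ) (bet (tri G x y z) S2 : ℝ)
    (cP G S1 x y z : ℝ) (cP G S2 x y z : ℝ) (cR G S1 x y z : ℝ) (cR G S2 x y z : ℝ)
    ![(bB G S1 y z x : ℝ), (bB G S1 x z y : ℝ), (bB G S1 x y z : ℝ)]
    ![(bB G S2 y z x : ℝ), (bB G S2 x z y : ℝ), (bB G S2 x y z : ℝ)]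
    ![(cQ G S1 y z x : ℝ), (cQ G S1 x z y : ℝ), (cQ G S1 x y z : ℝ)]
    ![(cQ G S2 y z x : ℝ), (cQ G S2 x z y : ℝ), (cQ G S2 x y z : ℝ)]
    ![¬ G.Adj y z, ¬ G.Adj x z, ¬ G.Adj x y] ![Pd G S2 x, Pd G S2 y, Pd G S2 z]
    (by positivity) (by positivity) (by positivity) (by positivity) (by positivity)
    (by positivity)
    (all3 (Nat.cast_nonneg _) (Nat.cast_nonneg _) (Nat.cast_nonneg _))
    (all3 (Nat.cast_nonneg _) (Nat.cast_nonneg _) (Nat.cast_nonneg _))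
    (by exact_mod_cast h.a_pos hP) (by exact_mod_cast h'.a_pos hP)
    (all3 (fun e => ⟨(A0.1 e).1, (B0.1 e).1, (A0.1 e).2, (B0.1 e).2⟩)
      (fun e => ⟨(A1.1 e).1, (B1.1 e).1, (A1.1 e).2, (B1.1 e).2⟩)
      (fun e => ⟨(A2.1 e).1, (B2.1 e).1, (A2.1 e).2, (B2.1 e).2⟩))
    (all3 (fun e => ⟨A0.2.1 e, B0.2.1 e⟩) (fun e => ⟨A1.2.1 e, B1.2.1 e⟩)
      (fun e => ⟨A2.2.1 e, B2.2.1 e⟩))
    (fun hp => by exact_mod_cast h.i1 hI (by exact_mod_cast hp))
    (fun hp => by exact_mod_cast h'.i1 hI' (by exact_mod_cast hp))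
    (all3 A0.2.2.1 A1.2.2.1 A2.2.2.1) (all3 B0.2.2.1 B1.2.2.1 B2.2.2.1)
    (all3 (fun _ => A0.2.2.2.1) (fun _ => A1.2.2.2.1) (fun _ => A2.2.2.2.1))
    (all3 (fun _ => B0.2.2.2.1) (fun _ => B1.2.2.2.1) (fun _ => B2.2.2.2.1))
    (all3 A0.2.2.2.2 A1.2.2.2.2 A2.2.2.2.2) (all3 B0.2.2.2.2 B1.2.2.2.2 B2.2.2.2.2)
    (pair3 (fun e f hef h1 h2 => by
        have := hef h2 h1
        refine ⟨by linarith [this.1], fun h3 => ?_⟩
        have h4 := this.2 (by linarith)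
        linarith)
      (fun _ _ => p2.2 nz) (fun _ _ => p1.swap.2 ny) (fun _ _ => p0.2 nx))
    (trip3 (fun e f t hef h1 h2 => by
        have := hef h2 h1
        refine ⟨by linarith [this.1], fun h3 => ?_⟩
        have h4 := this.2 h3
        refine ⟨by linarith [h4.1], fun h5 => ?_⟩
        have h6 := h4.2 (by linarith)
        linarith)
      (fun _ _ => p2') (fun _ _ => p1'.swap) (fun _ _ => p0'))
    (trip3 (fun e f t hef h1 h2 h3 => by
        have := hef h2 h1 h3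
        exact ⟨fun h4 => (this.1 h4).symm, fun h4 => (this.2 h4).symm⟩)
      (fun _ _ hz => by
        have := h'.rot.rcF hz
        rw [cP_rot, cQ_symm (x := x) (y := z)] at this
        exact this)
      (fun _ _ hy => by
        have := h'.rcF hy
        exact ⟨fun h4 => (this.1 h4).symm, fun h4 => (this.2 h4).symm⟩)
      (fun _ _ hx => by
        have := h'.rot.rot.rcF hx
        rw [cP_rot, cP_rot, cQ_symm (x := x) (y := z)] at this
        exact this))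
    (by
      rcases feas with f | f | f | f
      · exact Or.inl ⟨by exact_mod_cast f.1, by exact_mod_cast f.2⟩
      · exact Or.inr ⟨0, by
          show (0 : ℝ) < (cQ G S1 y z x : ℝ) ∧ (0 : ℝ) < (cQ G S2 y z x : ℝ)
          exact ⟨by exact_mod_cast f.1, by exact_mod_cast f.2⟩⟩
      · exact Or.inr ⟨1, by
          show (0 : ℝ) < (cQ G S1 x z y : ℝ) ∧ (0 : ℝ) < (cQ G S2 x z y : ℝ)
          exact ⟨by exact_mod_cast f.1, by exact_mod_cast f.2⟩⟩
      · exact Or.inr ⟨2, by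
          show (0 : ℝ) < (cQ G S1 x y z : ℝ) ∧ (0 : ℝ) < (cQ G S2 x y z : ℝ)
          exact ⟨by exact_mod_cast f.1, by exact_mod_cast f.2⟩⟩)
    (by
      rcases hD with f | f | f
      · exact ⟨0, f⟩
      · exact ⟨1, f⟩
      · exact ⟨2, f⟩)
  refine h.fin_lt (Q := (cP G S1 x y z : ℝ) * cP G S2 x y z + 2 * ((cQ G S1 x y z : ℝ) *
    cQ G S2 x y z + (cQ G S1 y z x : ℝ) * cQ G S2 y z x + (cQ G S1 x z y : ℝ) *
    cQ G S2 x z y) + 6 * ((cR G S1 x y z : ℝ) * cR G S2 x y z)) ?_ ?_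
  · have h1 := h.glue24
    have h2 : (24 : ℝ) * ((cols G (S1 ∪ S2) 4).card : ℝ) = (cP G S1 x y z : ℝ) *
      cP G S2 x y z + 2 * ((cQ G S1 x y z : ℝ) * cQ G S2 x y z + (cQ G S1 y z x : ℝ) *
      cQ G S2 y z x + (cQ G S1 x z y : ℝ) * cQ G S2 x z y) + 6 * ((cR G S1 x y z : ℝ) *
      cR G S2 x y z) := by exact_mod_cast h1
    exact h2.symm
  · rw [h.betc]
    push_cast
    simp only [Fin.sum_univ_three, Matrix.cons_val_zero, Matrix.cons_val_one,
      Matrix.cons_val] at key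
    refine key.trans_eq ?_
    ring

end Cut

end Pool.Agent.Xu.X2.H44
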