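import Pool.Agent.Lib.MP_144d21_co.X2.H44.Main12

/-!
# MP_144d21_co, IQ, the 3-cut step: all colourings are constant on the cut
-/

set_option autoImplicit false

namespace Pool.Agent.Xu.X2.H44

open Finset Pool.Agent.Xu Pool.Agent.Xu.X2

variable {V : Type} [Fintype V] [DecidableEq V]

/-- the contraction of all three terminals -/
noncomputable def bC (G : SimpleGraph V) (S : Finset V) (x y z : V) : ℤ :=
  bet (con (con G x y) y z) ((S.erase x).erase y)

/-- the contraction of a missing pair -/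
noncomputable def bD (G : SimpleGraph V) (S : Finset V) (x y : V) : ℤ :=
  bet (con G x y) (S.erase x)

theorem con_add_adj {G : SimpleGraph V} {v w a b : V} (ha : a ≠ v) (hb : b ≠ v) :
    (con (add G v w) v w).Adj a b ↔ (con G v w).Adj a b := by
  rw [con_adj, con_adj]
  simp only [add_adj]
  constructor
  · rintro ⟨hab, h4⟩
    refine ⟨hab, ?_⟩
    rcases h4 with (h4 | ⟨_, h4⟩) | ⟨h0, h4 | ⟨_, h4⟩⟩ | ⟨h0, h4 | ⟨_, h4⟩⟩
    · exact Or.inl h4
    · rcases h4 with h4 | h4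
      · exact absurd h4.1 ha
      · exact absurd h4.2 hb
    · exact Or.inr (Or.inl ⟨h0, h4⟩)
    · rcases h4 with h4 | h4
      · exact absurd (h0.trans h4.2.symm) hab
      · exact absurd h4.2 hb
    · exact Or.inr (Or.inr ⟨h0, h4⟩)
    · rcases h4 with h4 | h4
      · exact absurd (h0.trans h4.2.symm) hab.symm
      · exact absurd h4.2 ha
  · rintro ⟨hab, h4⟩
    exact ⟨hab, h4.imp (fun h => Or.inl h) (fun h => h.imp (fun h => ⟨h.1, Or.inl h.2⟩)
      (fun h => ⟨h.1, Or.inl h.2⟩))⟩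

/-- one step, with the plain contraction -/
theorem bet_split {G : SimpleGraph V} {S : Finset V} {v w : V} (hv : v ∈ S) (hw : w ∈ S)
    (hvw : v ≠ w) (h : ¬ G.Adj v w) :
    bet G S = bet (add G v w) S - bet (con G v w) (S.erase v) := by
  rw [bet_add G S v w hv hw hvw h]
  congr 1
  apply bet_congr
  intro a ha b hb
  rw [mem_erase] at ha hb
  exact con_add_adj ha.1 hb.1

theorem add_con_adj {G : SimpleGraph V} {x y z a b : V} (ha : a ≠ x) (hb : b ≠ x) (hxy : x ≠ y)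
    (hyz : y ≠ z) (hxz : x ≠ z) :
    (add (con G x y) y z).Adj a b ↔ (con (tri G x y z) x y).Adj a b := by
  rw [con_tri_adj ha hb hxy hyz hxz, add_adj, con_adj, con_adj]
  simp only [add_adj]
  constructor
  · rintro (⟨h, h'⟩ | h)
    · exact Or.inl ⟨h, h'.imp Or.inl (fun h => h.imp (fun h => ⟨h.1, Or.inl h.2⟩)
        (fun h => ⟨h.1, Or.inl h.2⟩))⟩
    · exact Or.inr h
  · rintro (⟨hab, h⟩ | h)
    · rcases h with (h | ⟨_, h⟩) | ⟨h0, h | ⟨h4, h⟩⟩ | ⟨h0, h | ⟨h4, h⟩⟩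
      · exact Or.inl ⟨hab, Or.inl h⟩
      · rcases h with h | h
        · exact absurd h.1 ha
        · exact absurd h.2 hb
      · exact Or.inl ⟨hab, Or.inr (Or.inl ⟨h0, h⟩)⟩
      · rcases h with h | h
        · exact Or.inr ⟨hab, Or.inl ⟨h0, h.2⟩⟩
        · exact absurd h.1 hxz
      · exact Or.inl ⟨hab, Or.inr (Or.inr ⟨h0, h⟩)⟩
      · rcases h with h | h
        · exact Or.inr ⟨hab, Or.inr ⟨h.2, h0⟩⟩
        · exact absurd h.1 hxz
    · exact Or.inr h

namespace Cut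

variable {G : SimpleGraph V} {S1 S2 : Finset V} {x y z : V}

/-- `B = C + D` -/
theorem bcd (h : Cut G S1 S2 x y z) (h1 : ¬ G.Adj x y) (h2 : ¬ G.Adj y z) (h3 : ¬ G.Adj x z) :
    bB G S1 x y z = bC G S1 x y z + bD G S1 x y := by
  obtain ⟨⟨x1, x2⟩, ⟨y1, y2⟩, z1, z2⟩ := h.mem
  have hn : ¬ (con G x y).Adj y z := by
    rw [con_adj]
    rintro ⟨_, h' | ⟨_, h'⟩ | ⟨h', _⟩⟩
    · exact h2 h'
    · exact h3 h'
    · exact h.yz h'.symm
  have e1 := bet_split (G := con G x y) (S := S1.erase x) (v := y) (w := z)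
    (mem_erase.2 ⟨h.xy.symm, y1⟩) (mem_erase.2 ⟨h.xz.symm, z1⟩) h.yz hn
  have e2 : bet (add (con G x y) y z) (S1.erase x) =
      bet (con (tri G x y z) x y) (S1.erase x) := by
    apply bet_congr
    intro a ha b hb
    rw [mem_erase] at ha hb
    exact add_con_adj ha.1 hb.1 h.xy h.yz h.xz
  rw [e2] at e1
  rw [bB_not h1]
  unfold bC bD
  rw [e1]
  ring

/-- `β = A - ∑ B + C` -/
theorem bA (h : Cut G S1 S2 x y z) (h1 : ¬ G.Adj x y) (h2 : ¬ G.Adj y z) (h3 : ¬ G.Adj x z) :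
    bet G S1 = bet (tri G x y z) S1 - bB G S1 y z x - bB G S1 x z y - bB G S1 x y z +
      bC G S1 x y z := by
  obtain ⟨⟨x1, x2⟩, ⟨y1, y2⟩, z1, z2⟩ := h.mem
  have e1 := bet_split (G := G) (S := S1) x1 y1 h.xy h1
  have e2 := h.swap.term2
  have e3 : bB G S1 z y x = bB G S1 y z x := h.rot.bB_symm
  have e4 := h.bcd h1 h2 h3
  rw [tri_swap G x y z, e3] at e2
  unfold bD at e4
  linarith

theorem bC_rot (h : Cut G S1 S2 x y z) (h1 : ¬ G.Adj x y) (h2 : ¬ G.Adj y z)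
    (h3 : ¬ G.Adj x z) : bC G S1 y z x = bC G S1 x y z := by
  have e1 := h.bA h1 h2 h3
  have e2 := h.rot.bA h2 (fun h' => h3 h'.symm) (fun h' => h1 h'.symm)
  have e3 : bB G S1 z x y = bB G S1 x z y := h.swap.bB_symm
  have e4 : bB G S1 y x z = bB G S1 x y z := h.bB_symm
  rw [tri_rot G x y z, e3, e4] at e2
  linarith

theorem bC_swap (h : Cut G S1 S2 x y z) (h1 : ¬ G.Adj x y) (h2 : ¬ G.Adj y z)
    (h3 : ¬ G.Adj x z) : bC G S1 x z y = bC G S1 x y z := by
  have e1 := h.bA h1 h2 h3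
  have e2 := h.swap.bA h3 (fun h' => h2 h'.symm) h1
  have e3 : bB G S1 z y x = bB G S1 y z x := h.rot.bB_symm
  rw [tri_swap G x y z, e3] at e2
  linarith

theorem bD_nonneg (hB : BnnS) (h : Cut G S1 S2 x y z) : 0 ≤ bD G S1 x y := by
  refine hB V _ _ h.cone1 ?_
  have := h.card4
  rw [card_erase_of_mem h.mem.1.1]
  omega

theorem bC_nonneg (hB : BnnS) (h : Cut G S1 S2 x y z) : 0 ≤ bC G S1 x y z := by
  refine hB V _ _ h.conT1 ?_
  have := h.card4
  rw [card_erase_of_mem (mem_erase.2 ⟨h.xy.symm, h.mem.2.1.1⟩), card_erase_of_mem h.mem.1.1]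
  omega

theorem b_nn (hB : BnnS) (h : Cut G S1 S2 x y z) : 0 ≤ bet G S1 :=
  hB V _ _ h.conn1 ((by norm_num : 2 ≤ 4).trans h.card4)

/-- the bound for the contraction of all three terminals -/
theorem iC (h : Cut G S1 S2 x y z) (hI : IqLe V S1.card) (h1 : ¬ G.Adj x y)
    (h2 : ¬ G.Adj y z) (h3 : ¬ G.Adj x z) (hc : Conn G (S1 \ S2)) (hr : 0 < cR G S1 x y z) :
    3 * 2 ^ S1.card ≤ 4 * bC G S1 x y z * (cR G S1 x y z : ℤ) := by
  obtain ⟨⟨x1, x2⟩, ⟨y1, y2⟩, z1, z2⟩ := h.mem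
  have e := cols_conT (G := G) x1 y1 z1 h.xy h.yz h.xz h1 h2 h3
  have k := hI _ _ (card_le_card ((erase_subset _ _).trans (erase_subset _ _))) (h.conT hc)
    (by rw [← card_pos, e]; exact hr)
  rw [e] at k
  have hc1 : S1.card = ((S1.erase x).erase y).card + 2 := by
    have a1 := card_erase_add_one x1
    have a2 := card_erase_add_one (mem_erase.2 ⟨h.xy.symm, y1⟩ : y ∈ S1.erase x)
    omega
  rw [hc1, pow_add]
  unfold bC
  linarith

/-- the bound for the contraction of a pair, if this pair is never the only equal pair -/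
theorem iD (h : Cut G S1 S2 x y z) (hI : IqLe V S1.card) (h1 : ¬ G.Adj x y)
    (h2 : ¬ G.Adj y z) (h3 : ¬ G.Adj x z) (hr : 0 < cR G S1 x y z)
    (hq : cQ G S1 x y z = 0) :
    3 * 2 ^ S1.card ≤ 2 * bD G S1 x y * (cR G S1 x y z : ℤ) := by
  obtain ⟨⟨x1, x2⟩, ⟨y1, y2⟩, z1, z2⟩ := h.mem
  have hz : ¬ Pd G S1 z := by
    intro hz
    obtain ⟨w, _, _, _, hw⟩ := h.rot.pd_w hz
    have h5 : 0 < cR G S1 x z y := by rw [cR_swap]; exact hr
    have := rcR h.xz h.yz.symm z1 hw h5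
    omega
  unfold Pd at hz
  push Not at hz
  obtain ⟨a, b, hab, ha, hb, hza, hzb⟩ := hz
  have inn : ∀ t ∈ S1, G.Adj z t → t ∉ S2 := by
    intro t ht hzt ht2
    rcases h.term ht ht2 with rfl | rfl | rfl
    · exact h3 hzt.symm
    · exact h2 hzt.symm
    · exact hzt.ne rfl
  have hT := h.cone hab ha (inn a ha hza) hb (inn b hb hzb) hza hzb
  have e := cols_con (G := G) (z := z) x1 y1 h.xy h1
  have k := hI _ _ (card_le_card (erase_subset _ _)) hT
    (by rw [← card_pos, e]; omega)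
  rw [e, hq, zero_add] at k
  have hc1 : S1.card = (S1.erase x).card + 1 := (card_erase_add_one x1).symm
  rw [hc1, pow_succ]
  unfold bD
  linarith

end Cut

end Pool.Agent.Xu.X2.H44
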